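import Mathlib
import Pool.Agent.Lib.Helper90.GSem.Defs

/-!
# Weakly compatible systems of `p`-adic representations of the Galois group of a number field

The absolute Galois group of a number field `F` contained in the algebraic closure `Ω` of `ℚ` is
the subgroup `F.fixingSubgroup` of `Gal(Ω/ℚ)`.
-/

namespace Pool.Agent.GSD

open Module Polynomial Filter Topology TensorProduct Pool.Agent.GSem

section rep

variable {p : ℕ} [Fact p.Prime] {Ω : Type*} [Field Ω] [CharZero Ω] {Γ : Subgroup Gal(Ω/ℚ)}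
variable {V : Type*} [AddCommGroup V] [Module ℚ_[p] V]

/-- The matrix coefficients of `ρ` are continuous. -/
def IsCont (ρ : Representation ℚ_[p] Γ V) : Prop :=
  ∀ (v : V) (f : Dual ℚ_[p] V), Continuous fun g => f (ρ g v)

/-- Every `Γ`-stable subspace has a `Γ`-stable complement. -/
def IsSemisimple (ρ : Representation ℚ_[p] Γ V) : Prop :=
  ∀ W : Submodule ℚ_[p] V, (∀ g, ∀ x ∈ W, ρ g x ∈ W) →
    ∃ W' : Submodule ℚ_[p] V, (∀ g, ∀ x ∈ W', ρ g x ∈ W') ∧ IsCompl W W'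

/-- `B` is a nondegenerate pairing `V × V → ℚ_p(-w)` compatible with the action of `Γ`. -/
def IsPolar (ρ : Representation ℚ_[p] Γ V) (w : ℤ)
    (B : V →ₗ[ℚ_[p]] V →ₗ[ℚ_[p]] ℚ_[p]) : Prop :=
  (∀ x, (∀ y, B x y = 0) → x = 0) ∧
    ∀ (g : Γ) x y, B (ρ g x) (ρ g y) = toQ (cyc p Ω (g : Gal(Ω/ℚ))) ^ (-w) * B x y

/-- `ρ` is Hodge–Tate with weights `h` at the place of the number field given by some embedding `ι`
of `Ω` in the algebraic closure of `ℚ_[p]`: there is a basis `e` of `ℂ_p ⊗ V` such that the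
decomposition group acts on `e i` through the power `- h i` of the cyclotomic character. -/
def IsHT (ρ : Representation ℚ_[p] Γ V) {n : ℕ} (h : Fin n → ℤ) : Prop :=
  ∃ (ι : Ω →+* PadicAlgCl p) (e : Basis (Fin n) ℂ_[p] (ℂ_[p] ⊗[ℚ_[p]] V)),
    ∀ (σ : Gal(PadicAlgCl p/ℚ_[p])) (g : Γ), Compat ι σ (g : Gal(Ω/ℚ)) → ∀ i,
      semi σ (ρ g) (e i) =
        algebraMap ℚ_[p] ℂ_[p] (toQ (cyc p Ω (g : Gal(Ω/ℚ))) ^ (-h i)) • e i

end rep

/-- `ρ` has distinct eigenvalues or distinct weights: some element of `Γ` acts with `n` distinct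
eigenvalues, or `ρ` is Hodge–Tate with pairwise distinct weights. -/
def IsRegular {p : ℕ} [Fact p.Prime] {Ω : Type*} [Field Ω] [CharZero Ω] {Γ : Subgroup Gal(Ω/ℚ)}
    {n : ℕ} (ρ : Representation ℚ_[p] Γ (Fin n → ℚ_[p])) : Prop :=
  (∃ g : Γ, (LinearMap.charpoly (ρ g)).Separable) ∨
    ∃ h : Fin n → ℤ, Function.Injective h ∧ IsHT ρ h

section system

variable {Ω : Type*} [Field Ω] [CharZero Ω] {Γ : Subgroup Gal(Ω/ℚ)}

/-- The `ρ p lam`, for `lam : E →+* ℚ_[p]`, form a weakly compatible system with coefficients in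
`E` which is pure of weight `w`: for all primes `ℓ` outside a finite set `T` and every element `φ`
of `Γ` which is a Frobenius element at `ℓ`, there is a polynomial `P` with coefficients in `E`, all
of whose complex roots `z` (for every complex embedding of `E`) satisfy `‖z‖ ^ 2 = ℓ ^ (-w)`, such
that `ρ p lam φ` has characteristic polynomial `lam P` for all `lam` and all primes `p ≠ ℓ`. -/
def IsPureSystem (E : Type*) [Field E] (w : ℤ) {n : ℕ}
    (ρ : ∀ (p : ℕ) [Fact p.Prime], (E →+* ℚ_[p]) → Representation ℚ_[p] Γ (Fin n → ℚ_[p])) :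
    Prop :=
  ∃ T : Finset ℕ, ∀ ℓ : ℕ, ℓ.Prime → ℓ ∉ T → ∀ φ : Γ, IsFrobAt ℓ (φ : Gal(Ω/ℚ)) →
    ∃ P : E[X], (∀ (τ : E →+* ℂ) (z : ℂ), P.eval₂ τ z = 0 → ‖z‖ ^ 2 = (ℓ : ℝ) ^ (-w)) ∧
      ∀ (p : ℕ) [Fact p.Prime] (lam : E →+* ℚ_[p]), p ≠ ℓ →
        LinearMap.charpoly (ρ p lam φ) = P.map lam

end system

/-- The set of the primes in `S` has lower Dirichlet density at least `δ`: the sum of `p ^ (-s)`
over the primes `p` in `S` is at least `δ log (1 / (s - 1)) - C` for all `s > 1` close to `1`. -/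
def HasLowerDensity (S : Set ℕ) (δ : ℝ) : Prop :=
  ∃ C : ℝ, ∀ᶠ s : ℝ in 𝓝[>] 1,
    δ * Real.log (1 / (s - 1)) - C ≤ ∑' p : ℕ, {q | q.Prime ∧ q ∈ S}.indicator
      (fun q => (q : ℝ) ^ (-s)) p

end Pool.Agent.GSD
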