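import Mathlib
import Pool.Agent.Lib.Helper95.Ord.MatrixRoots

/-!
# A discriminant function on matrices
-/

open Polynomial Pool.Agent.Ord

namespace Pool.Agent.GSD

section ring

variable {R S : Type*} [CommRing R] [CommRing S] {n : ℕ}

/-- The determinant of the trace form `(i, j) ↦ tr (M ^ (i + j))`. -/
def dsc (M : Matrix (Fin n) (Fin n) R) : R :=
  (Matrix.of fun i j : Fin n => (M ^ ((i : ℕ) + (j : ℕ))).trace).det

theorem dsc_map (f : R →+* S) (M : Matrix (Fin n) (Fin n) R) : dsc (M.map f) = f (dsc M) := by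
  unfold dsc
  rw [RingHom.map_det]
  congr 1
  ext i j
  rw [RingHom.mapMatrix_apply, Matrix.map_apply, Matrix.of_apply, Matrix.of_apply,
    AddMonoidHom.map_trace f]
  congr 1
  exact (map_pow (RingHom.mapMatrix f) M _).symm

theorem dsc_conj {E E' : Matrix (Fin n) (Fin n) R} (h : E * E' = 1)
    (M : Matrix (Fin n) (Fin n) R) : dsc (E' * M * E) = dsc M := by
  have h1 : ∀ k : ℕ, (E' * M * E) ^ k = E' * M ^ k * E := by
    intro k
    induction k with
    | zero =>
      rw [pow_zero, pow_zero, mul_one]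
      exact (mul_eq_one_comm.1 h).symm
    | succ k ih =>
      rw [pow_succ, ih, pow_succ]
      have : E' * M ^ k * E * (E' * M * E) = E' * M ^ k * (E * E') * M * E := by
        simp only [mul_assoc]
      rw [this, h, mul_one]
      simp only [mul_assoc]
  unfold dsc
  congr 1
  ext i j
  rw [Matrix.of_apply, Matrix.of_apply, h1, Matrix.trace_mul_comm, ← mul_assoc, h, one_mul]

theorem dsc_transpose (M : Matrix (Fin n) (Fin n) R) : dsc M.transpose = dsc M := by
  unfold dsc
  congr 1
  ext i j
  rw [Matrix.of_apply, Matrix.of_apply, ← Matrix.transpose_pow, Matrix.trace_transpose]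

end ring

section field

variable {K : Type*} [Field K] {n : ℕ}

theorem trace_of_charpoly {M : Matrix (Fin n) (Fin n) K} {α : Fin n → K}
    (hα : M.charpoly = ∏ i, (X - C (α i))) : M.trace = ∑ i, α i := by
  have hs : M.charpoly.Splits := by
    rw [hα]
    exact Polynomial.Splits.prod fun i _ => Polynomial.Splits.X_sub_C _
  have h1 : (∏ i, (X - C (α i))) = (Multiset.map (fun a => X - C a)
      (Multiset.map α Finset.univ.val)).prod := by
    rw [Multiset.map_map]
    rfl
  rw [Matrix.trace_eq_sum_roots_charpoly_of_splits hs, hα, h1, roots_multiset_prod_X_sub_C]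
  rfl

theorem dsc_eq [IsAlgClosed K] {M : Matrix (Fin n) (Fin n) K} {α : Fin n → K}
    (hα : M.charpoly = ∏ i, (X - C (α i))) :
    dsc M = (Matrix.vandermonde α).det ^ 2 := by
  have h1 : ∀ k : ℕ, (M ^ k).trace = ∑ i, α i ^ k := fun k =>
    trace_of_charpoly (charpoly_pow_eq hα k)
  unfold dsc
  have h2 : (Matrix.vandermonde α).det ^ 2 =
      ((Matrix.vandermonde α).transpose * Matrix.vandermonde α).det := by
    rw [Matrix.det_mul, Matrix.det_transpose, sq]
  rw [h2]
  congr 1
  ext i j
  rw [Matrix.of_apply, h1, Matrix.mul_apply]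
  refine Finset.sum_congr rfl fun l _ => ?_
  rw [Matrix.transpose_apply, Matrix.vandermonde_apply, Matrix.vandermonde_apply, pow_add]

theorem dsc_ne_zero_iff_injective [IsAlgClosed K] {M : Matrix (Fin n) (Fin n) K} {α : Fin n → K}
    (hα : M.charpoly = ∏ i, (X - C (α i))) : dsc M ≠ 0 ↔ Function.Injective α := by
  rw [dsc_eq hα, Ne, sq_eq_zero_iff, ← Ne, Matrix.det_vandermonde_ne_zero_iff]

theorem separable_iff_injective {α : Fin n → K} :
    (∏ i, (X - C (α i))).Separable ↔ Function.Injective α :=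
  separable_prod_X_sub_C_iff

/-- The discriminant function detects repeated eigenvalues. -/
theorem dsc_ne_zero_iff (M : Matrix (Fin n) (Fin n) K) : dsc M ≠ 0 ↔ M.charpoly.Separable := by
  let f : K →+* AlgebraicClosure K := algebraMap K (AlgebraicClosure K)
  obtain ⟨α, hα⟩ := exists_eigenvalues (M.map f)
  have h1 : dsc (M.map f) ≠ 0 ↔ dsc M ≠ 0 := by
    rw [dsc_map, Ne, map_eq_zero]
  have h2 : (M.map f).charpoly.Separable ↔ M.charpoly.Separable := by
    rw [Matrix.charpoly_map]
    exact Polynomial.separable_map f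
  rw [← h1, ← h2, dsc_ne_zero_iff_injective hα, hα, separable_iff_injective]

/-- A power of a matrix with a repeated eigenvalue has a repeated eigenvalue. -/
theorem dsc_ne_zero_of_pow {M : Matrix (Fin n) (Fin n) K} {k : ℕ} (h : dsc (M ^ k) ≠ 0) :
    dsc M ≠ 0 := by
  let f : K →+* AlgebraicClosure K := algebraMap K (AlgebraicClosure K)
  obtain ⟨α, hα⟩ := exists_eigenvalues (M.map f)
  have h1 : dsc (M.map f) ≠ 0 ↔ dsc M ≠ 0 := by
    rw [dsc_map, Ne, map_eq_zero]
  have h2 : (M ^ k).map f = (M.map f) ^ k := map_pow (RingHom.mapMatrix f) M k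
  have h3 : dsc ((M.map f) ^ k) ≠ 0 := by
    rw [← h2, dsc_map, Ne, map_eq_zero]
    exact h
  rw [dsc_ne_zero_iff_injective (charpoly_pow_eq hα k)] at h3
  rw [← h1, dsc_ne_zero_iff_injective hα]
  intro i j hij
  apply h3
  simp only [hij]

theorem dsc_diagonal_ne_zero {α : Fin n → K} (hα : Function.Injective α) :
    dsc (Matrix.diagonal α) ≠ 0 := by
  rw [dsc_ne_zero_iff, Matrix.charpoly_diagonal, separable_iff_injective]
  exact hα

end field

end Pool.Agent.GSD
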