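import Mathlib
import Pool.Agent.Lib.Helper95.Ord.Density
import Pool.Agent.Lib.Helper4.GSD.Defs
import Pool.Agent.Lib.Helper4.GSD.Dsc

/-!
# Frobenius elements with distinct eigenvalues
-/

open Set Topology Polynomial Pool.Agent.GSem Pool.Agent.Ord

namespace Pool.Agent.GSD

section

variable {Ω : Type*} [Field Ω] [CharZero Ω] {Γ : Subgroup Gal(Ω/ℚ)} {p : ℕ} [Fact p.Prime] {n : ℕ}

/-- The matrix of `ρ x`. -/
noncomputable def mat (ρ : Representation ℚ_[p] Γ (Fin n → ℚ_[p])) (x : Γ) :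
    Matrix (Fin n) (Fin n) ℚ_[p] := LinearMap.toMatrix' (ρ x)

theorem mat_charpoly (ρ : Representation ℚ_[p] Γ (Fin n → ℚ_[p])) (x : Γ) :
    (mat ρ x).charpoly = LinearMap.charpoly (ρ x) := by
  rw [mat, ← LinearMap.toMatrix_eq_toMatrix', LinearMap.charpoly_toMatrix]

theorem mat_mul (ρ : Representation ℚ_[p] Γ (Fin n → ℚ_[p])) (x y : Γ) :
    mat ρ (x * y) = mat ρ x * mat ρ y := by
  rw [mat, map_mul]
  exact LinearMap.toMatrix'_mul _ _

theorem mat_one (ρ : Representation ℚ_[p] Γ (Fin n → ℚ_[p])) : mat ρ 1 = 1 := by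
  rw [mat, map_one]
  exact LinearMap.toMatrix'_one

theorem mat_pow (ρ : Representation ℚ_[p] Γ (Fin n → ℚ_[p])) (x : Γ) (k : ℕ) :
    mat ρ (x ^ k) = mat ρ x ^ k := by
  induction k with
  | zero => rw [pow_zero, pow_zero, mat_one]
  | succ k ih => rw [pow_succ, pow_succ, mat_mul, ih]

theorem continuous_mat {ρ : Representation ℚ_[p] Γ (Fin n → ℚ_[p])} (hρ : IsCont ρ) :
    Continuous (mat ρ) := by
  refine continuous_pi fun i => continuous_pi fun j => ?_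
  have h1 := hρ (Pi.single j 1) (LinearMap.proj i)
  have h2 : (fun x => mat ρ x i j) = fun x => (LinearMap.proj i : (Fin n → ℚ_[p]) →ₗ[ℚ_[p]] ℚ_[p])
      (ρ x (Pi.single j 1)) := by
    funext x
    rw [mat, LinearMap.toMatrix'_apply]
    rfl
  exact h2 ▸ h1

theorem continuous_dsc : Continuous fun M : Matrix (Fin n) (Fin n) ℚ_[p] => dsc M := by
  unfold dsc
  refine Continuous.matrix_det ?_
  refine continuous_matrix fun i j => ?_
  simp only [Matrix.of_apply]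
  exact (continuous_id.pow _).matrix_trace

theorem isOpen_dsc {ρ : Representation ℚ_[p] Γ (Fin n → ℚ_[p])} (hρ : IsCont ρ) :
    IsOpen {x : Γ | dsc (mat ρ x) ≠ 0} :=
  isOpen_ne_fun (continuous_dsc.comp (continuous_mat hρ)) continuous_const

variable [IsAlgClosure ℚ Ω]

/-- If some element has distinct eigenvalues, so has some Frobenius element at an arbitrarily large
prime. -/
theorem exists_frob_separable (hΓ : IsOpen (Γ : Set Gal(Ω/ℚ)))
    (ρ : Representation ℚ_[p] Γ (Fin n → ℚ_[p])) (hρ : IsCont ρ) (g : Γ)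
    (hg : (LinearMap.charpoly (ρ g)).Separable) (b : ℕ) :
    ∃ l : ℕ, b < l ∧ l.Prime ∧ ∃ φ : Γ, IsFrobAt l (φ : Gal(Ω/ℚ)) ∧
      (LinearMap.charpoly (ρ φ)).Separable := by
  have hG : IsGalois ℚ Ω := isGaloisΩ
  have hV : IsOpen ((fun u : Γ => g * u) ⁻¹' {x : Γ | dsc (mat ρ x) ≠ 0}) :=
    (isOpen_dsc hρ).preimage (continuous_const_mul g)
  have h1V : (1 : Γ) ∈ ((fun u : Γ => g * u) ⁻¹' {x : Γ | dsc (mat ρ x) ≠ 0}) := by
    show dsc (mat ρ (g * 1)) ≠ 0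
    rw [mul_one, dsc_ne_zero_iff, mat_charpoly]
    exact hg
  set V := ((fun u : Γ => g * u) ⁻¹' {x : Γ | dsc (mat ρ x) ≠ 0}) with hVdef
  have hV' : IsOpen (Subtype.val '' V : Set Gal(Ω/ℚ)) := hΓ.isOpenMap_subtype_val V hV
  obtain ⟨N, hN⟩ := ProfiniteGrp.exist_openNormalSubgroup_sub_open_nhds_of_one hV'
    ⟨1, h1V, rfl⟩
  have hNo : IsOpen (N.toSubgroup : Set Gal(Ω/ℚ)) := N.isOpen
  have hNV : ∀ v ∈ N.toSubgroup, ∃ v' ∈ V, (v' : Gal(Ω/ℚ)) = v := fun v hv => hN hv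
  obtain ⟨l, hbl, hl, φ, hφ, k, hk, hφk⟩ :=
    exists_frob_gen N.toSubgroup hNo (g : Gal(Ω/ℚ)) b
  obtain ⟨k', hk'⟩ := exists_pow_eq_self_of_coprime hk
  -- `φ` lies in `Γ`
  have hmem : φ ∈ Γ := by
    have h1 := hφk
    rw [← QuotientGroup.mk_pow, eq_comm, QuotientGroup.eq] at h1
    obtain ⟨v, -, hv⟩ := hNV _ h1
    have h2 : φ = (g : Gal(Ω/ℚ)) ^ k * (v : Gal(Ω/ℚ)) := by
      rw [hv]
      group
    rw [h2]
    exact Γ.mul_mem (Γ.pow_mem g.2 k) v.2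
  refine ⟨l, hbl, hl, ⟨φ, hmem⟩, hφ, ?_⟩
  rw [← hφk, ← QuotientGroup.mk_pow, eq_comm, QuotientGroup.eq] at hk'
  obtain ⟨v, hvV, hv⟩ := hNV _ hk'
  have h3 : (⟨φ, hmem⟩ : Γ) ^ k' = g * v := by
    apply Subtype.ext
    rw [Subgroup.coe_pow, Subgroup.coe_mul, hv]
    group
  have h4 : dsc (mat ρ (g * v)) ≠ 0 := hvV
  rw [← h3, mat_pow] at h4
  rw [← mat_charpoly, ← dsc_ne_zero_iff]
  exact dsc_ne_zero_of_pow h4

end

end Pool.Agent.GSD
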