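import Mathlib
import Pool.Agent.Lib.Helper95.Ord.Local
import Pool.Agent.Lib.Helper95.Ord.DegOne
import Pool.Agent.Lib.Helper90.GSem.CycChar

/-!
# A Frobenius element permutes the embeddings inside the conjugacy classes over `ℚ_p`
-/

open NumberField Polynomial Pool.Agent.GSem Pool.Agent.Ord

namespace Pool.Agent.GSD

section residue

variable {p : ℕ} [hp : Fact p.Prime]

/-- The ring of integers of the algebraic closure of `ℚ_p`. -/
def Oint (p : ℕ) [Fact p.Prime] : Subring (PadicAlgCl p) where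
  carrier := {x | ‖x‖ ≤ 1}
  mul_mem' := by
    intro a b ha hb
    have ha' : ‖a‖ ≤ 1 := ha
    have hb' : ‖b‖ ≤ 1 := hb
    show ‖a * b‖ ≤ 1
    rw [norm_mul]
    exact mul_le_one₀ ha' (norm_nonneg _) hb'
  one_mem' := by
    show ‖(1 : PadicAlgCl p)‖ ≤ 1
    rw [norm_one]
  add_mem' := by
    intro a b ha hb
    exact (IsUltrametricDist.norm_add_le_max _ _).trans (max_le ha hb)
  zero_mem' := by
    show ‖(0 : PadicAlgCl p)‖ ≤ 1
    rw [norm_zero]
    exact zero_le_one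
  neg_mem' := by
    intro a ha
    show ‖-a‖ ≤ 1
    rw [norm_neg]
    exact ha

/-- Its maximal ideal. -/
def Mid (p : ℕ) [Fact p.Prime] : Ideal (Oint p) where
  carrier := {x | ‖(x : PadicAlgCl p)‖ < 1}
  add_mem' := by
    intro a b ha hb
    exact lt_of_le_of_lt (IsUltrametricDist.norm_add_le_max _ _) (max_lt ha hb)
  zero_mem' := by
    show ‖((0 : Oint p) : PadicAlgCl p)‖ < 1
    simp
  smul_mem' := by
    intro a b hb
    have hb' : ‖(b : PadicAlgCl p)‖ < 1 := hb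
    have ha' : ‖(a : PadicAlgCl p)‖ ≤ 1 := a.2
    show ‖((a * b : Oint p) : PadicAlgCl p)‖ < 1
    rw [Subring.coe_mul, norm_mul]
    exact mul_lt_one_of_nonneg_of_lt_one_right ha' (norm_nonneg _) hb'

theorem mem_Mid (x : Oint p) : x ∈ Mid p ↔ ‖(x : PadicAlgCl p)‖ < 1 := Iff.rfl

theorem Mid_isPrime : (Mid p).IsPrime := by
  refine ⟨?_, ?_⟩
  · rw [Ideal.ne_top_iff_one, mem_Mid]
    simp
  · intro a b hab
    rw [mem_Mid] at hab ⊢
    rw [mem_Mid]
    by_contra hcon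
    rw [not_or, not_lt, not_lt] at hcon
    rw [Subring.coe_mul, norm_mul] at hab
    have h1 := one_le_mul_of_one_le_of_one_le hcon.1 hcon.2
    exact absurd hab (not_lt.2 h1)

theorem p_mem_Mid : (p : Oint p) ∈ Mid p := by
  rw [mem_Mid]
  have : (((p : ℕ) : Oint p) : PadicAlgCl p) = (p : PadicAlgCl p) := by simp
  rw [this, norm_p_eq]
  exact inv_lt_one_of_one_lt₀ (by exact_mod_cast hp.out.one_lt)

/-- The residue ring. -/
abbrev Res (p : ℕ) [Fact p.Prime] := Oint p ⧸ Mid p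

theorem charP_Res : CharP (Res p) p := charP_quotient hp.out Mid_isPrime p_mem_Mid

/-- The map from `ℤ_[p]` to the ring of integers. -/
noncomputable def zint (p : ℕ) [Fact p.Prime] : ℤ_[p] →+* Oint p :=
  ((algebraMap ℚ_[p] (PadicAlgCl p)).comp (PadicInt.Coe.ringHom (p := p))).codRestrict (Oint p)
    (fun x => by
      show ‖algebraMap ℚ_[p] (PadicAlgCl p) (x : ℚ_[p])‖ ≤ 1
      rw [norm_algebraMap']
      exact x.norm_le_one)

theorem zint_coe (x : ℤ_[p]) : ((zint p x : Oint p) : PadicAlgCl p) =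
    algebraMap ℚ_[p] (PadicAlgCl p) (x : ℚ_[p]) := rfl

/-- The map from `ℤ_[p]` to the residue ring. -/
noncomputable def zres (p : ℕ) [Fact p.Prime] : ℤ_[p] →+* Res p :=
  (Ideal.Quotient.mk (Mid p)).comp (zint p)

theorem zres_pow (x : ℤ_[p]) : zres p x ^ p = zres p x := by
  have hchar := charP_Res (p := p)
  obtain ⟨m, -, hm⟩ := PadicInt.exists_mem_range (p := p) x
  have h1 : zres p x = (m : Res p) := by
    rw [← map_natCast (zres p) m, ← sub_eq_zero, ← map_sub]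
    have h2 : ‖((x - (m : ℤ_[p]) : ℤ_[p]) : ℚ_[p])‖ < 1 := by
      have h3 := (IsLocalRing.mem_maximalIdeal (x - (m : ℤ_[p]))).1 hm
      rw [mem_nonunits_iff, PadicInt.isUnit_iff] at h3
      exact lt_of_le_of_ne (PadicInt.norm_le_one _) h3
    show Ideal.Quotient.mk (Mid p) (zint p _) = 0
    rw [Ideal.Quotient.eq_zero_iff_mem, mem_Mid, zint_coe, norm_algebraMap']
    exact h2
  rw [h1]
  exact map_natCast (frobenius (Res p) p) m

/-- A root modulo the maximal ideal of a polynomial over `ℤ_[p]` is moved to another root by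
`x ↦ x ^ p`. -/
theorem eval_pow (M : ℤ_[p][X]) (x : Res p) (hx : M.eval₂ (zres p) x = 0) :
    M.eval₂ (zres p) (x ^ p) = 0 := by
  have hchar := charP_Res (p := p)
  have h1 := Polynomial.hom_eval₂ M (zres p) (frobenius (Res p) p) x
  rw [hx, map_zero] at h1
  have h2 : (frobenius (Res p) p).comp (zres p) = zres p := by
    ext y
    exact zres_pow y
  rw [h2] at h1
  exact h1.symm

end residue

section global

variable {Ω : Type*} [Field Ω] [CharZero Ω]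

/-- A nonzero algebraic integer is a unit at almost all primes. -/
theorem exists_bound_unit (x : 𝓞 Ω) (hx : x ≠ 0) : ∃ b : ℕ, ∀ (p : ℕ) [Fact p.Prime], b < p →
    ∀ ι : Ω →+* PadicAlgCl p, ‖ι (x : Ω)‖ = 1 := by
  have hxi : IsIntegral ℤ x := RingOfIntegers.isIntegral x
  have hc0 : (minpoly ℤ x).coeff 0 ≠ 0 := by
    have h1 := minpoly.isIntegrallyClosed_eq_field_fractions' ℚ (s := (x : Ω))
      (RingOfIntegers.isIntegral_coe x)
    have h2 : minpoly ℤ (x : Ω) = minpoly ℤ x :=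
      minpoly.algebraMap_eq RingOfIntegers.coe_injective x
    have hxQ : IsIntegral ℚ (x : Ω) := (RingOfIntegers.isIntegral_coe x).tower_top
    have h3 := minpoly.coeff_zero_ne_zero hxQ (fun h0 => hx (RingOfIntegers.coe_injective h0))
    rw [h1, h2, coeff_map] at h3
    intro h0
    rw [h0, map_zero] at h3
    exact h3 rfl
  refine ⟨((minpoly ℤ x).coeff 0).natAbs, fun p _ hp ι => ?_⟩
  have hfp : Fact p.Prime := inferInstance
  have h1 : aeval x (minpoly ℤ x) = 0 := minpoly.aeval ℤ x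
  have h2 : (((minpoly ℤ x).coeff 0 : ℤ) : 𝓞 Ω) = -(x * aeval x (minpoly ℤ x).divX) := by
    have h3 := congrArg (aeval x) (divX_mul_X_add (minpoly ℤ x))
    rw [h1, map_add, map_mul, aeval_X, aeval_C] at h3
    have h4 : algebraMap ℤ (𝓞 Ω) ((minpoly ℤ x).coeff 0) = (((minpoly ℤ x).coeff 0 : ℤ) : 𝓞 Ω) := by
      simp
    rw [← h4]
    linear_combination h3
  set c := (minpoly ℤ x).coeff 0
  set y := aeval x (minpoly ℤ x).divX
  have h5 : ι ((c : ℤ) : Ω) = -(ι (x : Ω) * ι (y : Ω)) := by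
    rw [← map_mul, ← map_neg]
    congr 1
    have := congrArg (fun z : 𝓞 Ω => (z : Ω)) h2
    simpa using this
  have h6 : ‖ι ((c : ℤ) : Ω)‖ = 1 := by
    rw [map_intCast, norm_int_eq (p := p)]
    have h7 : ¬ ((p : ℤ) ∣ c) := by
      intro hdvd
      have h8 := Int.natAbs_dvd_natAbs.2 hdvd
      rw [Int.natAbs_natCast] at h8
      exact absurd (Nat.le_of_dvd (Int.natAbs_pos.2 hc0) h8) (not_le.2 hp)
    by_contra hne
    have h9 := lt_of_le_of_ne (Padic.norm_int_le_one c) hne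
    exact h7 ((Padic.norm_intCast_lt_one_iff (k := c)).1 h9)
  rw [h5, norm_neg, norm_mul] at h6
  have h7 : ‖ι (x : Ω)‖ ≤ 1 := norm_le_one_of_isIntegral ((RingOfIntegers.isIntegral_coe x).map ι.toIntAlgHom)
  have h8 : ‖ι (y : Ω)‖ ≤ 1 := norm_le_one_of_isIntegral ((RingOfIntegers.isIntegral_coe y).map ι.toIntAlgHom)
  nlinarith [norm_nonneg (ι (x : Ω)), norm_nonneg (ι (y : Ω))]

variable [IsAlgClosure ℚ Ω]

/-- Roots in the closure of `ℚ_p` of a polynomial coming from `Ω` come from `Ω`. -/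
theorem exists_root_of_map {p : ℕ} [Fact p.Prime] (ι : Ω →+* PadicAlgCl p) (P : Polynomial Ω) (hP : P ≠ 0)
    (r : PadicAlgCl p) (hr : eval r (P.map ι) = 0) : ∃ γ : Ω, eval γ P = 0 ∧ ι γ = r := by
  have hcl : IsAlgClosed Ω := IsAlgClosure.isAlgClosed ℚ
  have h1 := (IsAlgClosed.splits P).eq_prod_roots
  have h2 := hr
  rw [h1, Polynomial.map_mul, map_C, eval_mul, eval_C, Polynomial.map_multiset_prod,
    Multiset.map_map, eval_multiset_prod, Multiset.map_map] at h2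
  have hlc : ι P.leadingCoeff ≠ 0 := by
    rw [Ne, map_eq_zero, leadingCoeff_eq_zero]
    exact hP
  have h3 := (mul_eq_zero.1 h2).resolve_left hlc
  rw [Multiset.prod_eq_zero_iff, Multiset.mem_map] at h3
  obtain ⟨γ, hγ, hγ'⟩ := h3
  refine ⟨γ, (mem_roots'.1 hγ).2, ?_⟩
  simp only [Function.comp_apply, Polynomial.map_sub, map_X, map_C, eval_sub, eval_X, eval_C]
      at hγ'
  exact (sub_eq_zero.1 hγ').symm

/-- Roots of a rational polynomial in the closure of `ℚ_p` come from `Ω`. -/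
theorem exists_root_eq {p : ℕ} [Fact p.Prime] (ι : Ω →+* PadicAlgCl p) (P : ℚ[X]) (hP : P ≠ 0)
    (r : PadicAlgCl p) (hr : aeval r P = 0) : ∃ γ : Ω, aeval γ P = 0 ∧ ι γ = r := by
  obtain ⟨γ, hγ, hγ'⟩ := exists_root_of_map ι (P.map (algebraMap ℚ Ω))
    ((Polynomial.map_ne_zero_iff (algebraMap ℚ Ω).injective).2 hP) r (by
      rw [Polynomial.map_map]
      have : ι.comp (algebraMap ℚ Ω) = algebraMap ℚ (PadicAlgCl p) := Subsingleton.elim _ _
      rw [this, eval_map, ← aeval_def]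
      exact hr)
  refine ⟨γ, ?_, hγ'⟩
  rw [eval_map, ← aeval_def] at hγ
  exact hγ

/-- **Conjugacy**, integral case. -/
theorem exists_bound_conj_int (β : 𝓞 Ω) : ∃ b : ℕ, ∀ (p : ℕ) [Fact p.Prime], b < p →
    ∀ (ι : Ω →+* PadicAlgCl p) (φ : Gal(Ω/ℚ)), IsFrobFor p ι φ → ∀ f : ℚ_[p][X],
      aeval (ι (β : Ω)) f = 0 → aeval (ι (φ (β : Ω))) f = 0 := by
  classical
  have halg : Algebra.IsAlgebraic ℚ Ω := IsAlgClosure.isAlgebraic
  have hβi : IsIntegral ℤ (β : Ω) := RingOfIntegers.isIntegral_coe β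
  have hβQ : IsIntegral ℚ (β : Ω) := hβi.tower_top
  set P := minpoly ℤ (β : Ω) with hP
  have hPm : P.Monic := minpoly.monic hβi
  set R : Finset Ω := (P.map (algebraMap ℤ Ω)).roots.toFinset with hR
  have hR0 : P.map (algebraMap ℤ Ω) ≠ 0 := (hPm.map _).ne_zero
  have hmemR : ∀ γ : Ω, γ ∈ R ↔ aeval γ P = 0 := by
    intro γ
    rw [hR, Multiset.mem_toFinset, mem_roots hR0, IsRoot.def, eval_map, ← aeval_def]
  have hRint : ∀ γ ∈ R, IsIntegral ℤ γ := fun γ hγ => ⟨P, hPm, (hmemR γ).1 hγ⟩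
  -- the bound
  have hb : ∀ g : Ω × Ω, ∃ b : ℕ, g.1 ∈ R → g.2 ∈ R → g.1 ≠ g.2 → ∀ (p : ℕ) [Fact p.Prime],
      b < p → ∀ ι : Ω →+* PadicAlgCl p, ‖ι (g.1 - g.2)‖ = 1 := by
    rintro ⟨γ, γ'⟩
    by_cases h : γ ∈ R ∧ γ' ∈ R ∧ γ ≠ γ'
    · obtain ⟨h1, h2, h3⟩ := h
      have h4 : IsIntegral ℤ (γ - γ') := (hRint γ h1).sub (hRint γ' h2)
      obtain ⟨b, hb⟩ := exists_bound_unit (⟨γ - γ', h4⟩ : 𝓞 Ω) (by
        intro h0
        apply h3
        have := congrArg (fun z : 𝓞 Ω => (z : Ω)) h0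
        exact sub_eq_zero.1 this)
      exact ⟨b, fun _ _ _ p _ hp ι => hb p hp ι⟩
    · exact ⟨0, fun h1 h2 h3 => absurd ⟨h1, h2, h3⟩ h⟩
  choose bd hbd using hb
  refine ⟨(R ×ˢ R).sup bd, fun p hpp hbp ι φ hφ f hf => ?_⟩
  have hdist : ∀ γ ∈ R, ∀ γ' ∈ R, γ ≠ γ' → ‖ι (γ - γ')‖ = 1 := by
    intro γ h1 γ' h2 h3
    refine hbd (γ, γ') h1 h2 h3 p (lt_of_le_of_lt ?_ hbp) ι
    exact Finset.le_sup (f := bd) (Finset.mem_product.2 ⟨h1, h2⟩)
  -- the minimal polynomial over `ℤ_p`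
  have hint : IsIntegral ℤ_[p] (ι (β : Ω)) := (hβi.map ι.toIntAlgHom).tower_top
  set M := minpoly ℤ_[p] (ι (β : Ω)) with hM
  have hMm : M.Monic := minpoly.monic hint
  have hMQ : minpoly ℚ_[p] (ι (β : Ω)) = M.map (algebraMap ℤ_[p] ℚ_[p]) :=
    minpoly.isIntegrallyClosed_eq_field_fractions' ℚ_[p] hint
  have hMf : M.map (algebraMap ℤ_[p] ℚ_[p]) ∣ f := by
    rw [← hMQ]
    exact minpoly.dvd _ _ hf
  suffices hgoal : aeval (ι (φ (β : Ω))) (M.map (algebraMap ℤ_[p] ℚ_[p])) = 0 by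
    obtain ⟨g, hg⟩ := hMf
    rw [hg, map_mul, hgoal, zero_mul]
  -- roots of `M`
  have hroot : ∀ r : PadicAlgCl p, aeval r M = 0 → ∃ γ ∈ R, ι γ = r := by
    intro r hr
    have h1 : M ∣ P.map (algebraMap ℤ ℤ_[p]) := by
      have htf : Module.IsTorsionFree ℤ_[p] (PadicAlgCl p) :=
        Module.IsTorsionFree.trans_faithfulSMul ℤ_[p] ℚ_[p] (PadicAlgCl p)
      apply minpoly.isIntegrallyClosed_dvd hint
      rw [aeval_map_algebraMap]
      have : aeval (ι (β : Ω)) P = ι (aeval (β : Ω) P) := by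
        exact aeval_algHom_apply ι.toIntAlgHom (β : Ω) P
      rw [this, hP, minpoly.aeval, map_zero]
    have h2 : aeval r P = 0 := by
      obtain ⟨g, hg⟩ := h1
      have h3 : aeval r (P.map (algebraMap ℤ ℤ_[p])) = 0 := by
        rw [hg, map_mul, hr, zero_mul]
      rwa [aeval_map_algebraMap] at h3
    have h3 : aeval r (P.map (algebraMap ℤ ℚ)) = 0 := by
      rw [aeval_map_algebraMap]; exact h2
    obtain ⟨γ, h4, h5⟩ := exists_root_eq ι (P.map (algebraMap ℤ ℚ))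
      (hPm.map _).ne_zero r h3
    refine ⟨γ, ?_, h5⟩
    rw [aeval_map_algebraMap] at h4
    exact (hmemR γ).2 h4
  -- reduction
  have hOx : ∀ x : 𝓞 Ω, ι (x : Ω) ∈ Oint p := fun x =>
    norm_le_one_of_isIntegral ((RingOfIntegers.isIntegral_coe x).map ι.toIntAlgHom)
  let θ : 𝓞 Ω → Res p := fun x => Ideal.Quotient.mk (Mid p) ⟨ι (x : Ω), hOx x⟩
  have hθφ : θ (φ • β) = θ β ^ p := by
    show Ideal.Quotient.mk (Mid p) _ = (Ideal.Quotient.mk (Mid p) _) ^ p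
    rw [← map_pow, Ideal.Quotient.eq, mem_Mid]
    have h1 := hφ β
    rw [map_sub ι, map_pow ι] at h1
    exact h1
  have hevalθ : ∀ x : 𝓞 Ω, M.eval₂ (zres p) (θ x) = 0 ↔ ‖aeval (ι (x : Ω)) M‖ < 1 := by
    intro x
    have h1 : M.eval₂ (zres p) (θ x) =
        Ideal.Quotient.mk (Mid p) (M.eval₂ (zint p) ⟨ι (x : Ω), hOx x⟩) := by
      rw [Polynomial.hom_eval₂]
      rfl
    have h2 : ((M.eval₂ (zint p) ⟨ι (x : Ω), hOx x⟩ : Oint p) : PadicAlgCl p) =
        aeval (ι (x : Ω)) M := by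
      have h3 := Polynomial.hom_eval₂ M (zint p) (Oint p).subtype ⟨ι (x : Ω), hOx x⟩
      rw [aeval_def]
      exact h3
    rw [h1, Ideal.Quotient.eq_zero_iff_mem, mem_Mid, h2]
  have hM0 : aeval (ι (β : Ω)) M = 0 := minpoly.aeval _ _
  have hsmall : ‖aeval (ι (φ (β : Ω))) M‖ < 1 := by
    have h1 : M.eval₂ (zres p) (θ β) = 0 := by
      rw [hevalθ, hM0, norm_zero]
      exact one_pos
    have h2 := eval_pow M _ h1
    rw [← hθφ, hevalθ] at h2
    exact h2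
  -- factorisation
  have hs := IsAlgClosed.splits (M.map (algebraMap ℤ_[p] (PadicAlgCl p)))
  have hfac := hs.eq_prod_roots
  have hlc : (M.map (algebraMap ℤ_[p] (PadicAlgCl p))).leadingCoeff = 1 := hMm.map _
  rw [hlc, C_1, one_mul] at hfac
  have hprod : aeval (ι (φ (β : Ω))) M =
      ((M.map (algebraMap ℤ_[p] (PadicAlgCl p))).roots.map fun r => ι (φ (β : Ω)) - r).prod := by
    have h1 : aeval (ι (φ (β : Ω))) M =
        eval (ι (φ (β : Ω))) (M.map (algebraMap ℤ_[p] (PadicAlgCl p))) := by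
      rw [eval_map, ← aeval_def]
    rw [h1]
    conv_lhs => rw [hfac]
    rw [eval_multiset_prod, Multiset.map_map]
    congr 1
    refine Multiset.map_congr rfl fun r _ => ?_
    simp
  have hex : ∃ r ∈ (M.map (algebraMap ℤ_[p] (PadicAlgCl p))).roots,
      ‖ι (φ (β : Ω)) - r‖ < 1 := by
    by_contra hcon
    push Not at hcon
    rw [hprod] at hsmall
    have key : ∀ s : Multiset (PadicAlgCl p), (∀ r ∈ s, 1 ≤ ‖ι (φ (β : Ω)) - r‖) →
        1 ≤ ‖(s.map fun r => ι (φ (β : Ω)) - r).prod‖ := by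
      intro s
      induction s using Multiset.induction_on with
      | empty => intro _; simp
      | cons a s ih =>
        intro h
        rw [Multiset.map_cons, Multiset.prod_cons, norm_mul]
        exact one_le_mul_of_one_le_of_one_le (h a (Multiset.mem_cons_self a s))
          (ih fun r hr => h r (Multiset.mem_cons_of_mem hr))
    exact absurd hsmall (not_lt.2 (key _ hcon))
  obtain ⟨r, hr, hr1⟩ := hex
  have hMr : aeval r M = 0 := by
    have := (mem_roots'.1 hr).2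
    rw [IsRoot.def, eval_map, ← aeval_def] at this
    exact this
  obtain ⟨γ, hγ, hγr⟩ := hroot r hMr
  have hφβ : φ (β : Ω) ∈ R := by
    rw [hmemR]
    have : aeval (φ (β : Ω)) P = φ (aeval (β : Ω) P) :=
      aeval_algHom_apply ((φ : Ω ≃ₐ[ℚ] Ω) : Ω →ₐ[ℚ] Ω).toRingHom.toIntAlgHom (β : Ω) P
    rw [this, hP, minpoly.aeval, map_zero]
  have heq : φ (β : Ω) = γ := by
    by_contra hne
    have h1 := hdist _ hφβ _ hγ hne
    rw [map_sub, hγr] at h1
    exact absurd hr1 (by rw [h1]; exact lt_irrefl 1)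
  rw [aeval_map_algebraMap, heq, hγr]
  exact hMr

/-- **Conjugacy.** -/
theorem exists_bound_conj (β : Ω) : ∃ b : ℕ, ∀ (p : ℕ) [Fact p.Prime], b < p →
    ∀ (ι : Ω →+* PadicAlgCl p) (φ : Gal(Ω/ℚ)), IsFrobFor p ι φ → ∀ f : ℚ_[p][X],
      aeval (ι β) f = 0 → aeval (ι (φ β)) f = 0 := by
  have halg : Algebra.IsAlgebraic ℚ Ω := IsAlgClosure.isAlgebraic
  have hβa : IsAlgebraic ℤ β := by
    have : IsAlgebraic ℚ β := Algebra.IsAlgebraic.isAlgebraic β
    exact (IsFractionRing.isAlgebraic_iff ℤ ℚ Ω).2 this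
  obtain ⟨y, hy0, hy⟩ := hβa.exists_integral_multiple
  have hyΩ : (y : Ω) ≠ 0 := by exact_mod_cast hy0
  have hint : IsIntegral ℤ ((y : Ω) * β) := by
    rw [← zsmul_eq_mul]
    exact hy
  obtain ⟨b, hb⟩ := exists_bound_conj_int (⟨(y : Ω) * β, hint⟩ : 𝓞 Ω)
  refine ⟨b, fun p hpp hbp ι φ hφ f hf => ?_⟩
  have hyp : (y : PadicAlgCl p) ≠ 0 := by exact_mod_cast hy0
  have key : ∀ x : Ω, aeval (ι ((y : Ω) * x)) (f.comp (C ((y : ℚ_[p])⁻¹) * X)) = aeval (ι x) f := by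
    intro x
    rw [aeval_comp, map_mul, aeval_C, aeval_X, map_inv₀, map_intCast, map_mul, map_intCast,
      ← mul_assoc, inv_mul_cancel₀ hyp, one_mul]
  have h1 := hb p hbp ι φ hφ (f.comp (C ((y : ℚ_[p])⁻¹) * X)) (by
    show aeval (ι ((y : Ω) * β)) _ = 0
    rw [key]
    exact hf)
  have h2 : φ ((y : Ω) * β) = (y : Ω) * φ β := by rw [map_mul, map_intCast]
  have h3 : aeval (ι (φ ((y : Ω) * β))) (f.comp (C ((y : ℚ_[p])⁻¹) * X)) = 0 := h1
  rw [h2, key] at h3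
  exact h3

/-- **Splitting**, integral case: an algebraic integer fixed by the Frobenius element of an
unramified place has its image in `ℚ_p`. -/
theorem exists_bound_split_int (β : 𝓞 Ω) : ∃ b : ℕ, ∀ (p : ℕ) [Fact p.Prime], b < p →
    ∀ (ι : Ω →+* PadicAlgCl p) (φ : Gal(Ω/ℚ)), IsFrobFor p ι φ → φ (β : Ω) = β →
      ∃ x : ℚ_[p], algebraMap ℚ_[p] (PadicAlgCl p) x = ι (β : Ω) := by
  classical
  have hG : IsGalois ℚ Ω := isGaloisΩ
  have hβi : IsIntegral ℤ (β : Ω) := RingOfIntegers.isIntegral_coe β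
  set P := minpoly ℤ (β : Ω) with hP
  have hPm : P.Monic := minpoly.monic hβi
  set R : Finset Ω := (P.map (algebraMap ℤ Ω)).roots.toFinset with hR
  have hR0 : P.map (algebraMap ℤ Ω) ≠ 0 := (hPm.map _).ne_zero
  have hmemR : ∀ γ : Ω, γ ∈ R ↔ aeval γ P = 0 := by
    intro γ
    rw [hR, Multiset.mem_toFinset, mem_roots hR0, IsRoot.def, eval_map, ← aeval_def]
  have hRint : ∀ γ ∈ R, IsIntegral ℤ γ := fun γ hγ => ⟨P, hPm, (hmemR γ).1 hγ⟩
  have hb : ∀ g : Ω, ∃ b : ℕ, g ∈ R → g ≠ (β : Ω) → ∀ (p : ℕ) [Fact p.Prime],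
      b < p → ∀ ι : Ω →+* PadicAlgCl p, ‖ι (g - β)‖ = 1 := by
    intro γ
    by_cases h : γ ∈ R ∧ γ ≠ (β : Ω)
    · obtain ⟨h1, h3⟩ := h
      have h4 : IsIntegral ℤ (γ - β) := (hRint γ h1).sub hβi
      obtain ⟨b, hb⟩ := exists_bound_unit (⟨γ - β, h4⟩ : 𝓞 Ω) (by
        intro h0
        apply h3
        have := congrArg (fun z : 𝓞 Ω => (z : Ω)) h0
        exact sub_eq_zero.1 this)
      exact ⟨b, fun _ _ p _ hp ι => hb p hp ι⟩
    · exact ⟨0, fun h1 h2 => absurd ⟨h1, h2⟩ h⟩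
  choose bd hbd using hb
  refine ⟨R.sup bd, fun p hpp hbp ι φ hφ hfix => ?_⟩
  have hOx : ∀ x : 𝓞 Ω, ι (x : Ω) ∈ Oint p := fun x =>
    norm_le_one_of_isIntegral ((RingOfIntegers.isIntegral_coe x).map ι.toIntAlgHom)
  obtain ⟨m, hm⟩ := exists_int_of_pow hpp.out (Mid_isPrime (p := p)) p_mem_Mid
    (x := ⟨ι (β : Ω), hOx β⟩) (by
      rw [mem_Mid]
      have h1 := hφ β
      rw [map_sub ι, map_pow ι, hfix] at h1
      exact h1)
  rw [mem_Mid] at hm
  have hm' : ‖ι (β : Ω) - (m : PadicAlgCl p)‖ < 1 := by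
    have : (((⟨ι (β : Ω), hOx β⟩ - (m : Oint p) : Oint p)) : PadicAlgCl p) =
        ι (β : Ω) - (m : PadicAlgCl p) := by
      simp
    rw [this] at hm
    exact hm
  have hfixed : ∀ σ : Gal(PadicAlgCl p/ℚ_[p]), σ (ι (β : Ω)) = ι (β : Ω) := by
    intro σ
    obtain ⟨g, hg⟩ := exists_compat (Ω := Ω) ι σ
    rw [← hg]
    by_contra hne
    have hne' : g (β : Ω) ≠ β := fun h => hne (by rw [h])
    have hgR : g (β : Ω) ∈ R := by
      rw [hmemR]
      have : aeval (g (β : Ω)) P = g (aeval (β : Ω) P) :=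
        aeval_algHom_apply ((g : Ω ≃ₐ[ℚ] Ω) : Ω →ₐ[ℚ] Ω).toRingHom.toIntAlgHom (β : Ω) P
      rw [this, hP, minpoly.aeval, map_zero]
    have h1 := hbd _ hgR hne' p (lt_of_le_of_lt (Finset.le_sup hgR) hbp) ι
    have h2 : ‖σ (ι (β : Ω)) - (m : PadicAlgCl p)‖ < 1 := by
      have h3 : σ (ι (β : Ω)) - (m : PadicAlgCl p) = σ (ι (β : Ω) - (m : PadicAlgCl p)) := by
        rw [map_sub, map_intCast]
      rw [h3, norm_gal]
      exact hm'
    have h4 : ι (g (β : Ω) - β) = (σ (ι (β : Ω)) - (m : PadicAlgCl p)) +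
        -(ι (β : Ω) - (m : PadicAlgCl p)) := by
      rw [map_sub, hg]
      ring
    rw [h4] at h1
    have h5 : ‖(σ (ι (β : Ω)) - (m : PadicAlgCl p)) + -(ι (β : Ω) - (m : PadicAlgCl p))‖ < 1 := by
      refine lt_of_le_of_lt (IsUltrametricDist.norm_add_le_max _ _) (max_lt h2 ?_)
      rw [norm_neg]
      exact hm'
    rw [h1] at h5
    exact lt_irrefl 1 h5
  have hGp : IsGalois ℚ_[p] (PadicAlgCl p) := inferInstance
  exact (InfiniteGalois.mem_range_algebraMap_iff_fixed _).2 hfixed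

/-- **Splitting.** -/
theorem exists_bound_split (β : Ω) : ∃ b : ℕ, ∀ (p : ℕ) [Fact p.Prime], b < p →
    ∀ (ι : Ω →+* PadicAlgCl p) (φ : Gal(Ω/ℚ)), IsFrobFor p ι φ → φ β = β →
      ∃ x : ℚ_[p], algebraMap ℚ_[p] (PadicAlgCl p) x = ι β := by
  have halg : Algebra.IsAlgebraic ℚ Ω := IsAlgClosure.isAlgebraic
  have hβa : IsAlgebraic ℤ β := by
    have : IsAlgebraic ℚ β := Algebra.IsAlgebraic.isAlgebraic β
    exact (IsFractionRing.isAlgebraic_iff ℤ ℚ Ω).2 this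
  obtain ⟨y, hy0, hy⟩ := hβa.exists_integral_multiple
  have hint : IsIntegral ℤ ((y : Ω) * β) := by
    rw [← zsmul_eq_mul]
    exact hy
  obtain ⟨b, hb⟩ := exists_bound_split_int (⟨(y : Ω) * β, hint⟩ : 𝓞 Ω)
  refine ⟨b, fun p hpp hbp ι φ hφ hfix => ?_⟩
  have hyp : (y : PadicAlgCl p) ≠ 0 := by exact_mod_cast hy0
  obtain ⟨x, hx⟩ := hb p hbp ι φ hφ (by
    show φ ((y : Ω) * β) = (y : Ω) * β
    rw [map_mul, map_intCast, hfix])
  have hx' : algebraMap ℚ_[p] (PadicAlgCl p) x = (y : PadicAlgCl p) * ι β := by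
    rw [hx]
    show ι ((y : Ω) * β) = _
    rw [map_mul, map_intCast]
  refine ⟨(y : ℚ_[p])⁻¹ * x, ?_⟩
  rw [map_mul, map_inv₀, map_intCast, hx', ← mul_assoc, inv_mul_cancel₀ hyp, one_mul]

/-- Conjugacy and splitting for the elements of a finite set. -/
theorem exists_bound_finset (R : Finset Ω) : ∃ b : ℕ, ∀ (p : ℕ) [Fact p.Prime], b < p →
    ∀ (ι : Ω →+* PadicAlgCl p) (φ : Gal(Ω/ℚ)), IsFrobFor p ι φ → ∀ γ ∈ R,
      (∀ f : ℚ_[p][X], aeval (ι γ) f = 0 → aeval (ι (φ γ)) f = 0) ∧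
        (φ γ = γ → ∃ x : ℚ_[p], algebraMap ℚ_[p] (PadicAlgCl p) x = ι γ) := by
  classical
  choose bd hbd using fun β : Ω => exists_bound_conj β
  choose bs hbs using fun β : Ω => exists_bound_split β
  refine ⟨max (R.sup bd) (R.sup bs), fun p hpp hbp ι φ hφ γ hγ => ⟨?_, ?_⟩⟩
  · exact hbd γ p (lt_of_le_of_lt ((Finset.le_sup hγ).trans (le_max_left _ _)) hbp) ι φ hφ
  · exact hbs γ p (lt_of_le_of_lt ((Finset.le_sup hγ).trans (le_max_right _ _)) hbp) ι φ hφ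

end global

end Pool.Agent.GSD
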