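import Mathlib
import Pool.Agent.Lib.Helper95.Ord.Density
import Pool.Agent.Lib.Helper4.GSD.Defs

/-!
# Frobenius' density theorem, lower bound for the density
-/

open Set Module NumberField Filter Topology Pool.Agent.GSem Pool.Agent.Lib.H59 Pool.Agent.Ord
open scoped Pointwise

noncomputable section

namespace Pool.Agent.GSD

variable {Ω : Type*} [Field Ω] [CharZero Ω] [IsAlgClosure ℚ Ω]

/-- The partial sum over the primes of `S`. -/
def ssum (S : Set ℕ) (s : ℝ) : ℝ :=
  ∑' p : ℕ, {q | q.Prime ∧ q ∈ S}.indicator (fun q => (q : ℝ) ^ (-s)) p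

theorem summable_ind (S : Set ℕ) {s : ℝ} (hs : 1 < s) :
    Summable fun p : ℕ => {q | q.Prime ∧ q ∈ S}.indicator (fun q => (q : ℝ) ^ (-s)) p :=
  (Real.summable_nat_rpow.2 (by linarith)).indicator _

theorem tendsto_shift : Tendsto (fun s : ℝ => s - 1) (𝓝[>] 1) (𝓝[>] 0) := by
  rw [tendsto_nhdsWithin_iff]
  constructor
  · have : Tendsto (fun s : ℝ => s - 1) (𝓝 1) (𝓝 (1 - 1)) :=
      (continuous_id.sub continuous_const).tendsto 1
    rw [sub_self] at this
    exact this.mono_left nhdsWithin_le_nhds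
  · filter_upwards [self_mem_nhdsWithin] with s hs
    have hs' : 1 < s := hs
    show 0 < s - 1
    linarith

theorem tendsto_log_inv : Tendsto (fun s : ℝ => Real.log (1 / (s - 1))) (𝓝[>] 1) atTop := by
  have h1 : Tendsto (fun s : ℝ => 1 / s) (𝓝[>] 0) atTop := by
    simpa [one_div] using tendsto_inv_nhdsGT_zero (𝕜 := ℝ)
  exact Real.tendsto_log_atTop.comp (h1.comp tendsto_shift)

/-- A lower density passes to larger sets, up to finitely many primes. -/
theorem HasLowerDensity.mono {S S' : Set ℕ} {δ : ℝ} (h : HasLowerDensity S δ) (b : ℕ)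
    (hSS' : ∀ p, b < p → p.Prime → p ∈ S → p ∈ S') : HasLowerDensity S' δ := by
  obtain ⟨C, hC⟩ := h
  refine ⟨C + (b + 1 : ℕ), ?_⟩
  filter_upwards [hC, self_mem_nhdsWithin] with s hs hs1
  have hs1' : 1 < s := hs1
  have h1 := summable_ind S hs1'
  have h2 := summable_ind S' hs1'
  have h3 : ∀ p : ℕ, {q | q.Prime ∧ q ∈ S}.indicator (fun q => (q : ℝ) ^ (-s)) p ≤
      {q | q.Prime ∧ q ∈ S'}.indicator (fun q => (q : ℝ) ^ (-s)) p +
        if p ∈ Finset.range (b + 1) then (1 : ℝ) else 0 := by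
    intro p
    have hnn : 0 ≤ {q | q.Prime ∧ q ∈ S'}.indicator (fun q => (q : ℝ) ^ (-s)) p :=
      Set.indicator_nonneg (fun q _ => by positivity) p
    by_cases hp : p.Prime ∧ p ∈ S
    · rw [Set.indicator_of_mem (s := {q | q.Prime ∧ q ∈ S}) hp]
      by_cases hb : b < p
      · rw [Set.indicator_of_mem (s := {q | q.Prime ∧ q ∈ S'}) ⟨hp.1, hSS' p hb hp.1 hp.2⟩]
        have : (0 : ℝ) ≤ if p ∈ Finset.range (b + 1) then (1 : ℝ) else 0 := by positivity
        linarith
      · rw [if_pos (Finset.mem_range.2 (by omega))]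
        have : (p : ℝ) ^ (-s) ≤ 1 := by
          apply Real.rpow_le_one_of_one_le_of_nonpos
          · exact_mod_cast hp.1.one_le
          · linarith
        linarith
    · rw [Set.indicator_of_notMem (s := {q | q.Prime ∧ q ∈ S}) hp]
      have : (0 : ℝ) ≤ if p ∈ Finset.range (b + 1) then (1 : ℝ) else 0 := by positivity
      linarith
  have h4 : Summable fun p : ℕ => if p ∈ Finset.range (b + 1) then (1 : ℝ) else 0 :=
    summable_of_ne_finset_zero (s := Finset.range (b + 1)) fun p hp => if_neg hp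
  have h5 : ∑' p : ℕ, (if p ∈ Finset.range (b + 1) then (1 : ℝ) else 0) = (b + 1 : ℕ) := by
    rw [tsum_eq_sum (s := Finset.range (b + 1)) fun p hp => if_neg hp, Finset.sum_ite_mem,
      Finset.inter_self, Finset.sum_const, Finset.card_range]
    simp
  have h6 := (h1.tsum_le_tsum h3 (h2.add h4))
  rw [h2.tsum_add h4, h5] at h6
  linarith

theorem HasLowerDensity.mono_right {S : Set ℕ} {δ δ' : ℝ} (h : HasLowerDensity S δ)
    (hδ : δ' ≤ δ) : HasLowerDensity S δ' := by
  obtain ⟨C, hC⟩ := h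
  refine ⟨C, ?_⟩
  filter_upwards [hC, tendsto_log_inv.eventually_ge_atTop 0] with s hs hs0
  have := mul_le_mul_of_nonneg_right hδ hs0
  linarith

/-- **Frobenius' density theorem**, lower bound: the primes with a Frobenius element in `y ^ k N`
for some `k` coprime to the order of `y` modulo `N` have lower density at least `1 / [G : N]`. -/
theorem density_gen (N : Subgroup Gal(Ω/ℚ)) [hNn : N.Normal]
    (hN : IsOpen (N : Set Gal(Ω/ℚ))) (y : Gal(Ω/ℚ)) :
    HasLowerDensity {p | ∃ φ : Gal(Ω/ℚ), IsFrobAt p φ ∧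
      IsGen (y : Gal(Ω/ℚ) ⧸ N) (φ : Gal(Ω/ℚ) ⧸ N)} (1 / Nat.card (Gal(Ω/ℚ) ⧸ N)) := by
  classical
  set S : Set ℕ := {p | ∃ φ : Gal(Ω/ℚ), IsFrobAt p φ ∧
      IsGen (y : Gal(Ω/ℚ) ⧸ N) (φ : Gal(Ω/ℚ) ⧸ N)} with hS
  have hfinG := finite_quotient N hN
  have : Fintype (Gal(Ω/ℚ) ⧸ N) := Fintype.ofFinite _
  set g : ℝ := (Nat.card (Gal(Ω/ℚ) ⧸ N) : ℝ) with hg
  have hg0 : 0 < g := by
    rw [hg]
    exact_mod_cast Nat.card_pos
  set yb : Gal(Ω/ℚ) ⧸ N := (y : Gal(Ω/ℚ) ⧸ N) with hyb
  set n := orderOf yb with hn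
  let C : ℕ → Subgroup (Gal(Ω/ℚ) ⧸ N) := fun d => Subgroup.zpowers (yb ^ d)
  have hNF : ∀ d, NumberField (fld N (C d)) := fun d => numberField_fld N (C d) hN
  let D := n.divisors
  let μ : ℕ → ℤ := fun d => ArithmeticFunction.moebius d
  -- bounds
  choose bd hbd using fun d => exists_bound_degOne_eq Ω (fld N (C d))
  let B : ℕ := D.sup bd
  -- the combination for large primes
  have hzero : ∀ p : ℕ, B < p → p.Prime →
      ∑ d ∈ D, (μ d : ℝ) * Nat.card (C d) * degOne (fld N (C d)) p ≤
        if p ∈ S then g else 0 := by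
    intro p hp hpp
    obtain ⟨φ, hφ⟩ := exists_frob (Ω := Ω) hpp
    have h1 : ∀ d ∈ D, ((Nat.card (C d) * degOne (fld N (C d)) p : ℕ) : ℤ) =
        ∑ x : Gal(Ω/ℚ) ⧸ N, if x⁻¹ * (φ : Gal(Ω/ℚ) ⧸ N) * x ∈ C d then (1 : ℤ) else 0 := by
      intro d hd
      have hb : bd d < p := by
        have : bd d ≤ D.sup bd := Finset.le_sup hd
        exact lt_of_le_of_lt this hp
      rw [hbd d p hb hpp φ hφ, ← card_conj_mem N (C d) hN φ, Nat.card_eq_fintype_card,
        Fintype.card_subtype, Finset.card_filter]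
      push_cast
      rfl
    have h2 : ∑ d ∈ D, μ d * ((Nat.card (C d) * degOne (fld N (C d)) p : ℕ) : ℤ) =
        ∑ x : Gal(Ω/ℚ) ⧸ N, if IsGen yb (x⁻¹ * (φ : Gal(Ω/ℚ) ⧸ N) * x) then (1 : ℤ) else 0 := by
      rw [Finset.sum_congr rfl fun d hd => by rw [h1 d hd, Finset.mul_sum]]
      rw [Finset.sum_comm]
      exact Finset.sum_congr rfl fun x _ =>
        sum_moebius_zpowers yb (x⁻¹ * (φ : Gal(Ω/ℚ) ⧸ N) * x)
    have h3 : ((∑ d ∈ D, μ d * ((Nat.card (C d) * degOne (fld N (C d)) p : ℕ) : ℤ) : ℤ) : ℝ) =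
        ∑ d ∈ D, (μ d : ℝ) * Nat.card (C d) * degOne (fld N (C d)) p := by
      push_cast
      refine Finset.sum_congr rfl fun d _ => ?_
      ring
    rw [← h3, h2]
    split_ifs with hpS
    · have h4 : (∑ x : Gal(Ω/ℚ) ⧸ N,
          if IsGen yb (x⁻¹ * (φ : Gal(Ω/ℚ) ⧸ N) * x) then (1 : ℤ) else 0) ≤
          ∑ _x : Gal(Ω/ℚ) ⧸ N, (1 : ℤ) := by
        refine Finset.sum_le_sum fun x _ => ?_
        split_ifs <;> norm_num
      rw [Finset.sum_const, Finset.card_univ, ← Nat.card_eq_fintype_card, nsmul_eq_mul,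
        mul_one] at h4
      rw [hg]
      exact_mod_cast h4
    · rw [Finset.sum_eq_zero]
      · simp
      · intro x _
        rw [if_neg]
        intro h5
        obtain ⟨g, rfl⟩ := QuotientGroup.mk_surjective x
        refine hpS ⟨g⁻¹ * φ * g, isFrobAt_conj hφ g, ?_⟩
        rw [QuotientGroup.mk_mul, QuotientGroup.mk_mul, QuotientGroup.mk_inv]
        exact h5
  -- the total weight is positive
  have hpos : (1 : ℝ) ≤ ∑ d ∈ D, (μ d : ℝ) * Nat.card (C d) := by
    have h1 : ∀ d, ((Nat.card (C d) : ℕ) : ℤ) =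
        ∑ x : Gal(Ω/ℚ) ⧸ N, if x ∈ C d then (1 : ℤ) else 0 := by
      intro d
      rw [Nat.card_eq_fintype_card, ← Finset.card_univ]
      have : Fintype.card (C d) = (Finset.univ.filter fun x => x ∈ C d).card := by
        rw [← Fintype.card_subtype]
      rw [Finset.card_univ, this, Finset.card_filter]
      push_cast
      rfl
    have h2 : (1 : ℤ) ≤ ∑ d ∈ D, μ d * ((Nat.card (C d) : ℕ) : ℤ) := by
      rw [Finset.sum_congr rfl fun d _ => by rw [h1 d, Finset.mul_sum]]
      rw [Finset.sum_comm]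
      have h3 : ∀ x : Gal(Ω/ℚ) ⧸ N, ∑ d ∈ D, μ d * (if x ∈ C d then (1 : ℤ) else 0) =
          if IsGen yb x then 1 else 0 := fun x => sum_moebius_zpowers yb x
      rw [Finset.sum_congr rfl fun x _ => h3 x]
      have h4 : (if IsGen yb yb then (1 : ℤ) else 0) ≤
          ∑ x : Gal(Ω/ℚ) ⧸ N, if IsGen yb x then (1 : ℤ) else 0 :=
        Finset.single_le_sum (f := fun x => if IsGen yb x then (1 : ℤ) else 0)
          (fun x _ => by positivity) (Finset.mem_univ yb)
      rw [if_pos ⟨1, Nat.coprime_one_left _, (pow_one _).symm⟩] at h4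
      exact h4
    have h3 : ((1 : ℤ) : ℝ) ≤ ((∑ d ∈ D, μ d * ((Nat.card (C d) : ℕ) : ℤ) : ℤ) : ℝ) := by
      exact_mod_cast h2
    push_cast at h3
    exact h3
  -- the analytic part
  choose Cc hCc using fun d => psum_bounds (fld N (C d))
  have hev : ∀ᶠ σ : ℝ in 𝓝[>] 0, ∀ d ∈ D, Summable (pterm (fld N (C d)) σ) ∧
      |psum (fld N (C d)) σ - Real.log (1 / σ)| ≤ Cc d := by
    rw [Filter.eventually_all_finset]
    intro d _
    exact hCc d
  -- upper bound for the combination
  let M : ℝ := ∑ p ∈ Finset.range (B + 1), ∑ d ∈ D, |(μ d : ℝ)| * Nat.card (C d) *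
    degOne (fld N (C d)) p
  let M' : ℝ := ∑ d ∈ D, |(μ d : ℝ)| * Nat.card (C d) * |Cc d|
  have hkey : ∀ᶠ σ : ℝ in 𝓝[>] 0, Real.log (1 / σ) ≤ M + M' + g * ssum S (1 + σ) := by
    have hlt : ∀ᶠ σ : ℝ in 𝓝[>] 0, σ < 1 :=
      (eventually_lt_nhds (by norm_num : (0 : ℝ) < 1)).filter_mono nhdsWithin_le_nhds
    filter_upwards [hev, hlt, self_mem_nhdsWithin] with σ hσ hσ1 hσ0
    have hσ0' : (0 : ℝ) < σ := hσ0
    have hlog0 : 0 ≤ Real.log (1 / σ) := by
      apply Real.log_nonneg
      rw [le_div_iff₀ hσ0']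
      linarith
    have hsumS := summable_ind S (show (1 : ℝ) < 1 + σ by linarith)
    have h1 : ∑ d ∈ D, (μ d : ℝ) * Nat.card (C d) * psum (fld N (C d)) σ ≤
        M + g * ssum S (1 + σ) := by
      have h2 : ∑ d ∈ D, (μ d : ℝ) * Nat.card (C d) * psum (fld N (C d)) σ =
          ∑' p, ∑ d ∈ D, (μ d : ℝ) * Nat.card (C d) * pterm (fld N (C d)) σ p := by
        rw [Summable.tsum_finsetSum (fun d hd => ((hσ d hd).1.mul_left _))]
        refine Finset.sum_congr rfl fun d _ => ?_
        rw [tsum_mul_left]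
        rfl
      rw [h2]
      have hsumL : Summable fun p => ∑ d ∈ D, (μ d : ℝ) * Nat.card (C d) *
          pterm (fld N (C d)) σ p := summable_sum fun d hd => (hσ d hd).1.mul_left _
      let e : ℕ → ℝ := fun p => if p ∈ Finset.range (B + 1) then
        ∑ d ∈ D, |(μ d : ℝ)| * Nat.card (C d) * degOne (fld N (C d)) p else 0
      have hsume : Summable e :=
        summable_of_ne_finset_zero (s := Finset.range (B + 1)) fun p hp => if_neg hp
      have htsume : ∑' p, e p = M := by
        rw [tsum_eq_sum (s := Finset.range (B + 1)) fun p hp => if_neg hp]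
        exact Finset.sum_congr rfl fun p hp => if_pos hp
      have h3 : ∀ p, ∑ d ∈ D, (μ d : ℝ) * Nat.card (C d) * pterm (fld N (C d)) σ p ≤
          e p + g * {q | q.Prime ∧ q ∈ S}.indicator (fun q => (q : ℝ) ^ (-(1 + σ))) p := by
        intro p
        have hnn : 0 ≤ {q | q.Prime ∧ q ∈ S}.indicator (fun q => (q : ℝ) ^ (-(1 + σ))) p :=
          Set.indicator_nonneg (fun q _ => by positivity) p
        have hnn' : 0 ≤ g * {q | q.Prime ∧ q ∈ S}.indicator
          (fun q => (q : ℝ) ^ (-(1 + σ))) p := by positivity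
        by_cases hp : p ∈ Finset.range (B + 1)
        · have h4 : ∑ d ∈ D, (μ d : ℝ) * Nat.card (C d) * pterm (fld N (C d)) σ p ≤ e p := by
            simp only [e, if_pos hp]
            refine Finset.sum_le_sum fun d _ => ?_
            have h5 : pterm (fld N (C d)) σ p ≤ degOne (fld N (C d)) p := by
              unfold pterm
              split_ifs with hpp
              · have h6 : (p : ℝ) ^ (-(1 + σ)) ≤ 1 := by
                  apply Real.rpow_le_one_of_one_le_of_nonpos
                  · exact_mod_cast hpp.one_le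
                  · linarith
                have h7 : (0 : ℝ) ≤ degOne (fld N (C d)) p := by positivity
                nlinarith
              · positivity
            have h8 : 0 ≤ pterm (fld N (C d)) σ p := pterm_nonneg _ _ _
            have h9 : (0 : ℝ) ≤ Nat.card (C d) := by positivity
            calc (μ d : ℝ) * Nat.card (C d) * pterm (fld N (C d)) σ p
                ≤ |(μ d : ℝ)| * Nat.card (C d) * pterm (fld N (C d)) σ p := by
                  gcongr
                  exact le_abs_self _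
              _ ≤ _ := by gcongr
          linarith
        · have he : e p = 0 := if_neg hp
          rw [he, zero_add]
          rw [Finset.mem_range, not_lt] at hp
          by_cases hpp : p.Prime
          · have h4 : ∀ d ∈ D, (μ d : ℝ) * Nat.card (C d) * pterm (fld N (C d)) σ p =
                ((μ d : ℝ) * Nat.card (C d) * degOne (fld N (C d)) p) * (p : ℝ) ^ (-(1 + σ)) := by
              intro d _
              unfold pterm
              rw [if_pos hpp]
              ring
            rw [Finset.sum_congr rfl h4, ← Finset.sum_mul]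
            have h5 := hzero p (by omega) hpp
            have h6 : (0 : ℝ) ≤ (p : ℝ) ^ (-(1 + σ)) := by positivity
            by_cases hpS : p ∈ S
            · rw [if_pos hpS] at h5
              rw [Set.indicator_of_mem (s := {q | q.Prime ∧ q ∈ S}) ⟨hpp, hpS⟩]
              exact mul_le_mul_of_nonneg_right h5 h6
            · rw [if_neg hpS] at h5
              exact (mul_nonpos_of_nonpos_of_nonneg h5 h6).trans hnn'
          · rw [Finset.sum_eq_zero]
            · exact hnn'
            · intro d _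
              unfold pterm
              rw [if_neg hpp, mul_zero]
      have h4 := hsumL.tsum_le_tsum h3 (hsume.add (hsumS.mul_left g))
      rw [hsume.tsum_add (hsumS.mul_left g), htsume, tsum_mul_left] at h4
      exact h4
    have h2 : (∑ d ∈ D, (μ d : ℝ) * Nat.card (C d)) * Real.log (1 / σ) - M' ≤
        ∑ d ∈ D, (μ d : ℝ) * Nat.card (C d) * psum (fld N (C d)) σ := by
      have h3 : ∀ d ∈ D, (μ d : ℝ) * Nat.card (C d) * Real.log (1 / σ) -
          |(μ d : ℝ)| * Nat.card (C d) * |Cc d| ≤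
          (μ d : ℝ) * Nat.card (C d) * psum (fld N (C d)) σ := by
        intro d hd
        have h4 := (hσ d hd).2.trans (le_abs_self _)
        have h5 : |(μ d : ℝ) * Nat.card (C d) * (psum (fld N (C d)) σ - Real.log (1 / σ))| ≤
            |(μ d : ℝ)| * Nat.card (C d) * |Cc d| := by
          rw [abs_mul, abs_mul, Nat.abs_cast]
          gcongr
        have h6 := (abs_le.1 h5).1
        have h7 : (μ d : ℝ) * Nat.card (C d) * (psum (fld N (C d)) σ - Real.log (1 / σ)) =
          (μ d : ℝ) * Nat.card (C d) * psum (fld N (C d)) σ -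
            (μ d : ℝ) * Nat.card (C d) * Real.log (1 / σ) := by ring
        linarith
      have h8 := Finset.sum_le_sum h3
      rw [Finset.sum_sub_distrib, ← Finset.sum_mul] at h8
      exact h8
    have h10 : Real.log (1 / σ) ≤ (∑ d ∈ D, (μ d : ℝ) * Nat.card (C d)) * Real.log (1 / σ) := by
      nlinarith
    linarith
  refine ⟨(M + M') / g, ?_⟩
  filter_upwards [tendsto_shift.eventually hkey] with s hs
  have h1 : (1 : ℝ) + (s - 1) = s := by ring
  rw [h1] at hs
  show 1 / g * Real.log (1 / (s - 1)) - (M + M') / g ≤ ssum S s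
  rw [one_div_mul_eq_div, ← sub_div, div_le_iff₀ hg0]
  linarith

end Pool.Agent.GSD
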