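import Mathlib
import Pool.Agent.Lib.Helper90.GSem.HT
import Pool.Agent.Lib.Helper90.GSem.GalC
import Pool.Agent.Lib.Helper95.Ord.FrobExists
import Pool.Agent.Lib.Helper4.GSD.Defs

/-!
# Tate's theorem for open subgroups, and weight decomposition of relations
-/

open Module TensorProduct Pool.Agent.GSem Pool.Agent.Ord

namespace Pool.Agent.GSD

variable {Ω : Type*} [Field Ω] [CharZero Ω] [IsAlgClosure ℚ Ω] {p : ℕ} [hp : Fact p.Prime]

omit [IsAlgClosure ℚ Ω] in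
theorem compat_mul {ι : Ω →+* PadicAlgCl p} {σ τ : Gal(PadicAlgCl p/ℚ_[p])} {g h : Gal(Ω/ℚ)}
    (h1 : Compat ι σ g) (h2 : Compat ι τ h) : Compat ι (σ * τ) (g * h) := by
  intro x
  rw [AlgEquiv.mul_apply, AlgEquiv.mul_apply, h1, h2]

omit [IsAlgClosure ℚ Ω] in
theorem compat_one {ι : Ω →+* PadicAlgCl p} :
    Compat ι (1 : Gal(PadicAlgCl p/ℚ_[p])) (1 : Gal(Ω/ℚ)) := fun _ => rfl

/-- The restriction homomorphism attached to an embedding. -/
theorem exists_restrict (ι : Ω →+* PadicAlgCl p) :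
    ∃ r : Gal(PadicAlgCl p/ℚ_[p]) →* Gal(Ω/ℚ), ∀ σ, Compat ι σ (r σ) := by
  have hcl : IsAlgClosed Ω := IsAlgClosure.isAlgClosed ℚ
  have hG : IsGalois ℚ Ω := isGaloisΩ
  choose r hr using fun σ => exists_compat (Ω := Ω) ι σ
  refine ⟨MonoidHom.mk' r fun σ τ => ?_, hr⟩
  exact (hr (σ * τ)).unique (compat_mul (hr σ) (hr τ))

/-- **Tate's theorem** for the decomposition group of a number field: no nontrivial power of the
cyclotomic character is trivialised by `ℂ_p`. -/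
theorem exists_ne_twist_sub {Γ : Subgroup Gal(Ω/ℚ)} (hΓ : IsOpen (Γ : Set Gal(Ω/ℚ)))
    (ι : Ω →+* PadicAlgCl p) (c : ℂ_[p]) (hc : c ≠ 0) (m : ℤ) (hm : m ≠ 0) :
    ∃ (σ : Gal(PadicAlgCl p/ℚ_[p])) (g : Γ), Compat ι σ (g : Gal(Ω/ℚ)) ∧
      galC σ c ≠ algebraMap ℚ_[p] ℂ_[p] (toQ (cyc p Ω (g : Gal(Ω/ℚ))) ^ m) * c := by
  classical
  have hcl : IsAlgClosed Ω := IsAlgClosure.isAlgClosed ℚ
  have hG : IsGalois ℚ Ω := isGaloisΩ
  by_contra hcon
  push Not at hcon
  obtain ⟨r, hr⟩ := exists_restrict (Ω := Ω) ι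
  set H : Subgroup Gal(PadicAlgCl p/ℚ_[p]) := Γ.comap r with hH
  have hfinΓ : Finite (Gal(Ω/ℚ) ⧸ Γ) := Subgroup.quotient_finite_of_isOpen Γ hΓ
  have hfiΓ : Γ.FiniteIndex := Subgroup.finiteIndex_of_finite_quotient
  have hfi : H.FiniteIndex := by
    refine ⟨?_⟩
    rw [hH, Subgroup.index_comap]
    exact (inferInstance : (Γ.subgroupOf r.range).FiniteIndex).index_ne_zero
  have hfin : Finite (Gal(PadicAlgCl p/ℚ_[p]) ⧸ H) := Subgroup.finite_quotient_of_finiteIndex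
  have hft : Fintype (Gal(PadicAlgCl p/ℚ_[p]) ⧸ H) := Fintype.ofFinite _
  let χ : Gal(PadicAlgCl p/ℚ_[p]) → ℚ_[p] := fun σ => toQ (cyc p Ω (r σ))
  have hχmul : ∀ σ τ, χ (σ * τ) = χ σ * χ τ := fun σ τ => by
    show toQ (cyc p Ω (r (σ * τ))) = toQ (cyc p Ω (r σ)) * toQ (cyc p Ω (r τ))
    rw [map_mul, map_mul, map_mul]
  have hχ0 : ∀ σ, χ σ ≠ 0 := fun σ => toQ_ne_zero _
  let a : ℚ_[p] →+* ℂ_[p] := algebraMap ℚ_[p] ℂ_[p]
  have ha0 : ∀ σ (k : ℤ), a (χ σ ^ k) ≠ 0 := fun σ k => by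
    rw [Ne, map_eq_zero]
    exact zpow_ne_zero _ (hχ0 σ)
  let F : Gal(PadicAlgCl p/ℚ_[p]) → ℂ_[p] := fun σ => a (χ σ ^ (-m)) * galC σ c
  have hgal0 : ∀ σ, galC σ c ≠ 0 := by
    intro σ h0
    rw [← norm_eq_zero, norm_galC, norm_eq_zero] at h0
    exact hc h0
  have hF0 : ∀ σ, F σ ≠ 0 := fun σ => mul_ne_zero (ha0 σ _) (hgal0 σ)
  have hFH : ∀ σ, ∀ h ∈ H, F (σ * h) = F σ := by
    intro σ h hh
    have h1 := hcon h ⟨r h, hh⟩ (hr h)
    have h1' : galC h c = a (χ h ^ m) * c := h1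
    show a (χ (σ * h) ^ (-m)) * galC (σ * h) c = a (χ σ ^ (-m)) * galC σ c
    rw [galC_mul, h1', map_mul, galC_algebraMap, hχmul, mul_zpow, map_mul]
    have h2 : a (χ h ^ (-m)) * a (χ h ^ m) = 1 := by
      rw [← map_mul, ← zpow_add₀ (hχ0 h), neg_add_cancel, zpow_zero, map_one]
    calc a (χ σ ^ (-m)) * a (χ h ^ (-m)) * (a (χ h ^ m) * galC σ c)
        = a (χ σ ^ (-m)) * (a (χ h ^ (-m)) * a (χ h ^ m)) * galC σ c := by ring
      _ = _ := by rw [h2, mul_one]
  let Fq : Gal(PadicAlgCl p/ℚ_[p]) ⧸ H → ℂ_[p] := fun x => F x.out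
  have hFq : ∀ σ, F σ = Fq (σ : Gal(PadicAlgCl p/ℚ_[p]) ⧸ H) := by
    intro σ
    have h1 : σ⁻¹ * ((σ : Gal(PadicAlgCl p/ℚ_[p]) ⧸ H).out) ∈ H := by
      rw [← QuotientGroup.eq]
      exact (QuotientGroup.out_eq' _).symm
    have h2 := hFH σ _ h1
    rw [mul_inv_cancel_left] at h2
    exact h2.symm
  set Nm : ℂ_[p] := ∏ x, Fq x with hNm
  have hNm0 : Nm ≠ 0 := Finset.prod_ne_zero_iff.2 fun x _ => hF0 _
  set k : ℕ := Fintype.card (Gal(PadicAlgCl p/ℚ_[p]) ⧸ H) with hk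
  have hk0 : (k : ℤ) ≠ 0 := by
    have : 0 < k := Fintype.card_pos
    exact_mod_cast this.ne'
  obtain ⟨τ, g, hτg, hne⟩ := exists_ne_twist (Ω := Ω) ι Nm hNm0 (m * k) (mul_ne_zero hm hk0)
  have hgr : g = r τ := hτg.unique (hr τ)
  apply hne
  rw [hgr]
  show galC τ Nm = a (χ τ ^ (m * (k : ℤ))) * Nm
  have h1 : ∀ x : Gal(PadicAlgCl p/ℚ_[p]) ⧸ H, galC τ (Fq x) = a (χ τ ^ m) * Fq (τ • x) := by
    intro x
    obtain ⟨σ, rfl⟩ := QuotientGroup.mk_surjective x
    rw [← hFq]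
    have h2 : (τ • (σ : Gal(PadicAlgCl p/ℚ_[p]) ⧸ H)) =
        ((τ * σ : Gal(PadicAlgCl p/ℚ_[p])) : Gal(PadicAlgCl p/ℚ_[p]) ⧸ H) := rfl
    rw [h2, ← hFq]
    show galC τ (a (χ σ ^ (-m)) * galC σ c) =
      a (χ τ ^ m) * (a (χ (τ * σ) ^ (-m)) * galC (τ * σ) c)
    rw [map_mul, galC_algebraMap, galC_mul, hχmul, mul_zpow, map_mul]
    have h3 : a (χ τ ^ m) * a (χ τ ^ (-m)) = 1 := by
      rw [← map_mul, ← zpow_add₀ (hχ0 τ), add_neg_cancel, zpow_zero, map_one]
    calc a (χ σ ^ (-m)) * galC τ (galC σ c)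
        = (a (χ τ ^ m) * a (χ τ ^ (-m))) * (a (χ σ ^ (-m)) * galC τ (galC σ c)) := by
          rw [h3, one_mul]
      _ = _ := by ring
  rw [hNm, map_prod, Finset.prod_congr rfl fun x _ => h1 x, Finset.prod_mul_distrib,
    Finset.prod_const, Finset.card_univ, ← hk, zpow_mul, zpow_natCast, map_pow]
  congr 1
  exact Fintype.prod_equiv (MulAction.toPerm τ) _ _ fun x => rfl

/-- **Weight decomposition of relations.** -/
theorem rel_component {Γ : Subgroup Gal(Ω/ℚ)} (hΓ : IsOpen (Γ : Set Gal(Ω/ℚ)))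
    (ι : Ω →+* PadicAlgCl p) {J : Type*} [Fintype J] (Φ : Γ → J → ℂ_[p]) (wt : J → ℤ)
    (hΦ : ∀ (σ : Gal(PadicAlgCl p/ℚ_[p])) (g₀ : Γ), Compat ι σ (g₀ : Gal(Ω/ℚ)) → ∀ (g : Γ) j,
      galC σ (Φ (g * g₀) j) =
        algebraMap ℚ_[p] ℂ_[p] (toQ (cyc p Ω (g₀ : Gal(Ω/ℚ))) ^ (-wt j)) * Φ g j) :
    ∀ (N : ℕ) (c : J → ℂ_[p]), {j | c j ≠ 0}.ncard = N →
      (∀ (σ : Gal(PadicAlgCl p/ℚ_[p])) (g : Γ), Compat ι σ (g : Gal(Ω/ℚ)) →
        ∑ j, c j * Φ g j = 0) → ∀ k : ℤ,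
      ∀ (σ : Gal(PadicAlgCl p/ℚ_[p])) (g : Γ), Compat ι σ (g : Gal(Ω/ℚ)) →
        ∑ j, (if wt j = k then c j else 0) * Φ g j = 0 := by
  classical
  intro N
  induction N using Nat.strong_induction_on with
  | _ N ih =>
    intro c hN hc k σ g hg
    by_cases hone : ∀ j j', c j ≠ 0 → c j' ≠ 0 → wt j = wt j'
    · by_cases hk : ∃ j, c j ≠ 0 ∧ wt j = k
      · obtain ⟨j₀, hj₀, hj₀k⟩ := hk
        refine (Finset.sum_congr rfl fun j _ => ?_).trans (hc σ g hg)
        by_cases hj : c j = 0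
        · rw [hj, ite_self]
        · rw [if_pos ((hone j j₀ hj hj₀).trans hj₀k)]
      · push Not at hk
        refine Finset.sum_eq_zero fun j _ => ?_
        by_cases hj : c j = 0
        · rw [hj, ite_self, zero_mul]
        · rw [if_neg (hk j hj), zero_mul]
    · push Not at hone
      obtain ⟨j₀, j₁, hj₀, hj₁, hne⟩ := hone
      obtain ⟨τ, g₀, hτ, hτne⟩ := exists_ne_twist_sub hΓ ι (c j₁ / c j₀) (div_ne_zero hj₁ hj₀)
        (wt j₁ - wt j₀) (sub_ne_zero.2 (Ne.symm hne))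
      set χ := toQ (cyc p Ω (g₀ : Gal(Ω/ℚ))) with hχ
      have hχ0 : χ ≠ 0 := toQ_ne_zero _
      set a : ℚ_[p] →+* ℂ_[p] := algebraMap ℚ_[p] ℂ_[p] with ha
      have haadd : ∀ x y : ℤ, a (χ ^ (x + y)) = a (χ ^ x) * a (χ ^ y) := fun x y => by
        rw [zpow_add₀ hχ0, map_mul]
      have hgj₀ : galC τ (c j₀) ≠ 0 := by
        intro h0
        rw [← norm_eq_zero, norm_galC, norm_eq_zero] at h0
        exact hj₀ h0
      -- the new relation
      let G : J → ℂ_[p] := fun j =>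
        c j₀ * (a (χ ^ (wt j₀ - wt j)) * galC τ (c j)) - galC τ (c j₀) * c j
      have hG0 : ∀ j, c j = 0 → G j = 0 := by
        intro j hj
        show c j₀ * (a (χ ^ (wt j₀ - wt j)) * galC τ (c j)) - galC τ (c j₀) * c j = 0
        rw [hj, map_zero]
        ring
      have hGj₀ : G j₀ = 0 := by
        show c j₀ * (a (χ ^ (wt j₀ - wt j₀)) * galC τ (c j₀)) - galC τ (c j₀) * c j₀ = 0
        rw [sub_self, zpow_zero, map_one]
        ring
      have hGj₁ : G j₁ ≠ 0 := by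
        intro h0
        apply hτne
        have h0' : c j₀ * (a (χ ^ (wt j₀ - wt j₁)) * galC τ (c j₁)) - galC τ (c j₀) * c j₁ = 0 := h0
        have h1 : a (χ ^ (wt j₁ - wt j₀)) * a (χ ^ (wt j₀ - wt j₁)) = 1 := by
          rw [← haadd]
          have : wt j₁ - wt j₀ + (wt j₀ - wt j₁) = 0 := by ring
          rw [this, zpow_zero, map_one]
        rw [map_div₀, div_eq_iff hgj₀]
        have h2 : c j₀ * galC τ (c j₁) = a (χ ^ (wt j₁ - wt j₀)) * (galC τ (c j₀) * c j₁) := by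
          rw [← sub_eq_zero.1 h0']
          calc c j₀ * galC τ (c j₁) =
              (a (χ ^ (wt j₁ - wt j₀)) * a (χ ^ (wt j₀ - wt j₁))) * (c j₀ * galC τ (c j₁)) := by
                rw [h1, one_mul]
            _ = _ := by ring
        field_simp
        linear_combination h2
      have hGrel : ∀ (σ : Gal(PadicAlgCl p/ℚ_[p])) (g : Γ), Compat ι σ (g : Gal(Ω/ℚ)) →
          ∑ j, G j * Φ g j = 0 := by
        intro σ g hg
        have h1 := hc (σ * τ) (g * g₀) (compat_mul hg hτ)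
        have h2 := congrArg (galC τ) h1
        rw [map_sum, map_zero] at h2
        have h3 : ∀ j, galC τ (c j * Φ (g * g₀) j) =
            galC τ (c j) * (a (χ ^ (-wt j)) * Φ g j) := fun j => by
          rw [map_mul, hΦ τ g₀ hτ]
        rw [Finset.sum_congr rfl fun j _ => h3 j] at h2
        have h4 : ∀ j, G j * Φ g j = c j₀ * a (χ ^ (wt j₀)) *
            (galC τ (c j) * (a (χ ^ (-wt j)) * Φ g j)) - galC τ (c j₀) * (c j * Φ g j) := by
          intro j
          have h5 : a (χ ^ (wt j₀ - wt j)) = a (χ ^ (wt j₀)) * a (χ ^ (-wt j)) := by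
            rw [← haadd, sub_eq_add_neg]
          show (c j₀ * (a (χ ^ (wt j₀ - wt j)) * galC τ (c j)) - galC τ (c j₀) * c j) * Φ g j = _
          rw [h5]
          ring
        rw [Finset.sum_congr rfl fun j _ => h4 j, Finset.sum_sub_distrib, ← Finset.mul_sum,
          ← Finset.mul_sum, h2, hc σ g hg]
        ring
      have hfinc : {j | c j ≠ 0}.Finite := Set.toFinite _
      have hcardG : {j | G j ≠ 0}.ncard < N := by
        rw [← hN]
        apply Set.ncard_lt_ncard _ hfinc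
        refine ⟨fun j hj hj' => hj (hG0 j hj'), fun hsub => ?_⟩
        exact hsub hj₀ hGj₀
      have hGk := ih _ hcardG G rfl hGrel
      -- subtract
      set t : ℂ_[p] := c j₁ / G j₁ with ht
      let c₂ : J → ℂ_[p] := fun j => c j - t * (if wt j = wt j₁ then G j else 0)
      have hc₂0 : ∀ j, c j = 0 → c₂ j = 0 := by
        intro j hj
        show c j - t * (if wt j = wt j₁ then G j else 0) = 0
        rw [hG0 j hj, hj, ite_self]
        ring
      have hc₂j₁ : c₂ j₁ = 0 := by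
        show c j₁ - t * (if wt j₁ = wt j₁ then G j₁ else 0) = 0
        rw [if_pos rfl, ht, div_mul_cancel₀ _ hGj₁, sub_self]
      have hc₂rel : ∀ (σ : Gal(PadicAlgCl p/ℚ_[p])) (g : Γ), Compat ι σ (g : Gal(Ω/ℚ)) →
          ∑ j, c₂ j * Φ g j = 0 := by
        intro σ g hg
        have h1 : ∀ j, c₂ j * Φ g j = c j * Φ g j -
            t * ((if wt j = wt j₁ then G j else 0) * Φ g j) := by
          intro j
          show (c j - t * (if wt j = wt j₁ then G j else 0)) * Φ g j = _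
          ring
        rw [Finset.sum_congr rfl fun j _ => h1 j, Finset.sum_sub_distrib, ← Finset.mul_sum,
          hc σ g hg, hGk (wt j₁) σ g hg]
        ring
      have hcardc₂ : {j | c₂ j ≠ 0}.ncard < N := by
        rw [← hN]
        apply Set.ncard_lt_ncard _ hfinc
        refine ⟨fun j hj hj' => hj (hc₂0 j hj'), fun hsub => ?_⟩
        exact hsub hj₁ hc₂j₁
      have h1 := ih _ hcardc₂ c₂ rfl hc₂rel k σ g hg
      have h2 : ∀ j, (if wt j = k then c j else 0) * Φ g j =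
          (if wt j = k then c₂ j else 0) * Φ g j +
            (if wt j₁ = k then t * ((if wt j = wt j₁ then G j else 0) * Φ g j) else 0) := by
        intro j
        have h3 : c j = c₂ j + t * (if wt j = wt j₁ then G j else 0) := by
          show c j = c j - t * (if wt j = wt j₁ then G j else 0) + _
          ring
        by_cases hjk : wt j = k
        · rw [if_pos hjk, if_pos hjk]
          by_cases hj₁k : wt j₁ = k
          · rw [if_pos hj₁k]
            conv_lhs => rw [h3]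
            ring
          · rw [if_neg hj₁k]
            conv_lhs => rw [h3]
            have h4 : ¬ (wt j = wt j₁) := fun h => hj₁k (h.symm.trans hjk)
            rw [if_neg h4]
            ring
        · rw [if_neg hjk, if_neg hjk]
          by_cases hj₁k : wt j₁ = k
          · rw [if_pos hj₁k, if_neg (fun h => hjk (h.trans hj₁k))]
            ring
          · rw [if_neg hj₁k]
            ring
      rw [Finset.sum_congr rfl fun j _ => h2 j, Finset.sum_add_distrib, h1, zero_add]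
      by_cases hj₁k : wt j₁ = k
      · simp only [if_pos hj₁k]
        rw [← Finset.mul_sum, hGk (wt j₁) σ g hg, mul_zero]
      · simp only [if_neg hj₁k, Finset.sum_const_zero]

end Pool.Agent.GSD
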