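import Mathlib
import Pool.Agent.Lib.Helper4.GSD.Twist
import Pool.Agent.Lib.Helper4.GSD.Frob
import Pool.Agent.Lib.Helper90.GSem.Rep

/-!
# Distinct Hodge–Tate weights give an element with distinct eigenvalues
-/

open Module TensorProduct Pool.Agent.GSem Pool.Agent.Ord

namespace Pool.Agent.GSD

section poly

variable {K : Type*} [Field K] {n : ℕ}

/-- The polynomial in the entries of `Y` given by the discriminant of `E' * Y`. -/
noncomputable def dpoly (E' : Matrix (Fin n) (Fin n) K) : MvPolynomial (Fin n × Fin n) K :=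
  dsc (E'.map MvPolynomial.C * Matrix.of fun i j => MvPolynomial.X (i, j))

theorem eval_dpoly (E' : Matrix (Fin n) (Fin n) K) (Y : Matrix (Fin n) (Fin n) K) :
    MvPolynomial.eval (fun ij : Fin n × Fin n => Y ij.1 ij.2) (dpoly E') = dsc (E' * Y) := by
  unfold dpoly
  rw [← dsc_map]
  congr 1
  rw [Matrix.map_mul]
  congr 1
  · ext i j
    simp
  · ext i j
    simp

end poly

section main

variable {Ω : Type*} [Field Ω] [CharZero Ω] [IsAlgClosure ℚ Ω] {p : ℕ} [hp : Fact p.Prime]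
variable {Γ : Subgroup Gal(Ω/ℚ)} {n : ℕ}

omit [IsAlgClosure ℚ Ω] in
/-- The matrix form of the action on a Hodge–Tate basis. -/
theorem ht_matrix (ρ : Representation ℚ_[p] Γ (Fin n → ℚ_[p]))
    (e : Basis (Fin n) ℂ_[p] (ℂ_[p] ⊗[ℚ_[p]] (Fin n → ℚ_[p])))
    (σ : Gal(PadicAlgCl p/ℚ_[p])) (g : Γ) (c : Fin n → ℂ_[p])
    (h : ∀ i, semi σ (ρ g) (e i) = c i • e i) (i j : Fin n) :
    ∑ l, galC σ ((Algebra.TensorProduct.basis ℂ_[p] (Pi.basisFun ℚ_[p] (Fin n))).repr (e i) l) *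
        algebraMap ℚ_[p] ℂ_[p] (mat ρ g j l) =
      c i * (Algebra.TensorProduct.basis ℂ_[p] (Pi.basisFun ℚ_[p] (Fin n))).repr (e i) j := by
  set bC := Algebra.TensorProduct.basis ℂ_[p] (Pi.basisFun ℚ_[p] (Fin n)) with hbC
  have h1 := congrArg (fun z => bC.repr z j) (h i)
  simp only [map_smul, Finsupp.smul_apply, smul_eq_mul] at h1
  rw [← h1]
  conv_rhs => rw [← bC.sum_repr (e i)]
  rw [map_sum, map_sum, Finsupp.finsetSum_apply]
  refine Finset.sum_congr rfl fun l _ => ?_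
  rw [semi_smul, map_smul, Finsupp.smul_apply, smul_eq_mul]
  congr 1
  rw [hbC, Algebra.TensorProduct.basis_apply, semi_tmul, map_one,
    Algebra.TensorProduct.basis_repr_tmul, Finsupp.smul_apply, Finsupp.mapRange_apply,
    smul_eq_mul, one_mul]
  congr 1
  rw [mat, LinearMap.toMatrix'_apply, Pi.basisFun_apply, Pi.basisFun_repr]

/-- **Distinct weights.** -/
theorem exists_separable_of_HT (hΓ : IsOpen (Γ : Set Gal(Ω/ℚ)))
    (ρ : Representation ℚ_[p] Γ (Fin n → ℚ_[p])) {h : Fin n → ℤ} (hinj : Function.Injective h)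
    (hHT : IsHT ρ h) : ∃ g : Γ, (LinearMap.charpoly (ρ g)).Separable := by
  classical
  obtain ⟨ι, e, he⟩ := hHT
  by_contra hcon
  push Not at hcon
  have hzero : ∀ g : Γ, dsc (mat ρ g) = 0 := by
    intro g
    by_contra h0
    rw [← Ne, dsc_ne_zero_iff, mat_charpoly] at h0
    exact hcon g h0
  set bC := Algebra.TensorProduct.basis ℂ_[p] (Pi.basisFun ℚ_[p] (Fin n)) with hbC
  let a : ℚ_[p] →+* ℂ_[p] := algebraMap ℚ_[p] ℂ_[p]
  let E : Matrix (Fin n) (Fin n) ℂ_[p] := Matrix.of fun i j => bC.repr (e i) j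
  -- `E` is invertible
  let E' : Matrix (Fin n) (Fin n) ℂ_[p] := Matrix.of fun i j => e.repr (bC i) j
  have hEE' : E * E' = 1 := by
    ext i j
    have h1 : e.repr (e i) j = ∑ l, bC.repr (e i) l * e.repr (bC l) j := by
      conv_lhs => rw [← bC.sum_repr (e i)]
      rw [map_sum, Finsupp.finsetSum_apply]
      refine Finset.sum_congr rfl fun l _ => ?_
      rw [map_smul, Finsupp.smul_apply, smul_eq_mul]
    rw [Matrix.mul_apply, Matrix.one_apply]
    show ∑ l, bC.repr (e i) l * e.repr (bC l) j = _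
    rw [← h1, e.repr_self, Finsupp.single_apply]
  have hE'E : E' * E = 1 := mul_eq_one_comm.1 hEE'
  -- the functions on the group
  let Y : Γ → Matrix (Fin n) (Fin n) ℂ_[p] := fun g => E * ((mat ρ g).map a).transpose
  have hYapp : ∀ g i j, Y g i j = ∑ l, E i l * a (mat ρ g j l) := by
    intro g i j
    show (E * ((mat ρ g).map a).transpose) i j = _
    rw [Matrix.mul_apply]
    rfl
  have hY : ∀ (σ : Gal(PadicAlgCl p/ℚ_[p])) (g₀ : Γ), Compat ι σ (g₀ : Gal(Ω/ℚ)) →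
      ∀ (g : Γ) i j, galC σ (Y (g * g₀) i j) =
        a (toQ (cyc p Ω (g₀ : Gal(Ω/ℚ))) ^ (-h i)) * Y g i j := by
    intro σ g₀ hg₀ g i j
    have h1 := ht_matrix ρ e σ g₀ _ (he σ g₀ hg₀) i
    have h2 : Y (g * g₀) i j = ∑ l, (∑ m, E i m * a (mat ρ g₀ l m)) * a (mat ρ g j l) := by
      rw [hYapp, mat_mul]
      simp_rw [Matrix.mul_apply, map_sum, map_mul, Finset.mul_sum, Finset.sum_mul]
      rw [Finset.sum_comm]
      refine Finset.sum_congr rfl fun l _ => Finset.sum_congr rfl fun m _ => ?_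
      ring
    rw [h2, map_sum]
    have h3 : ∀ l, galC σ ((∑ m, E i m * a (mat ρ g₀ l m)) * a (mat ρ g j l)) =
        a (toQ (cyc p Ω (g₀ : Gal(Ω/ℚ))) ^ (-h i)) * (E i l * a (mat ρ g j l)) := by
      intro l
      rw [map_mul, map_sum, galC_algebraMap]
      have h4 : ∀ m, galC σ (E i m * a (mat ρ g₀ l m)) =
          galC σ (bC.repr (e i) m) * algebraMap ℚ_[p] ℂ_[p] (mat ρ g₀ l m) := fun m => by
        rw [map_mul, galC_algebraMap]
        rfl
      rw [Finset.sum_congr rfl fun m _ => h4 m, h1 l, mul_assoc]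
      rfl
    rw [Finset.sum_congr rfl fun l _ => h3 l, ← Finset.mul_sum, hYapp]
  -- monomials
  let Pol := dpoly E'
  let J := {m // m ∈ Pol.support}
  let Φ : Γ → J → ℂ_[p] := fun g m => ∏ ij : Fin n × Fin n, Y g ij.1 ij.2 ^ (m.1 ij)
  let wt : J → ℤ := fun m => ∑ ij : Fin n × Fin n, (m.1 ij : ℤ) * h ij.1
  have hzpow : ∀ (x : ℚ_[p]) (hx : x ≠ 0) (m : J) (s : ℤ),
      ∏ ij : Fin n × Fin n, (x ^ (s * h ij.1)) ^ (m.1 ij) = x ^ (s * wt m) := by
    intro x hx m s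
    have h1 : ∀ ij : Fin n × Fin n, (x ^ (s * h ij.1)) ^ (m.1 ij) =
        x ^ ((m.1 ij : ℤ) * h ij.1 * s) := by
      intro ij
      rw [← zpow_natCast, ← zpow_mul]
      congr 1
      ring
    rw [Finset.prod_congr rfl fun ij _ => h1 ij, prod_zpow_sum hx,
      ← Finset.sum_mul]
    congr 1
    show _ = s * ∑ ij : Fin n × Fin n, (m.1 ij : ℤ) * h ij.1
    ring
  have hΦ : ∀ (σ : Gal(PadicAlgCl p/ℚ_[p])) (g₀ : Γ), Compat ι σ (g₀ : Gal(Ω/ℚ)) →
      ∀ (g : Γ) (j : J), galC σ (Φ (g * g₀) j) =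
        algebraMap ℚ_[p] ℂ_[p] (toQ (cyc p Ω (g₀ : Gal(Ω/ℚ))) ^ (-wt j)) * Φ g j := by
    intro σ g₀ hg₀ g j
    have hx := toQ_ne_zero (cyc p Ω (g₀ : Gal(Ω/ℚ)))
    show galC σ (∏ ij : Fin n × Fin n, Y (g * g₀) ij.1 ij.2 ^ (j.1 ij)) =
      a (toQ (cyc p Ω (g₀ : Gal(Ω/ℚ))) ^ (-wt j)) * ∏ ij : Fin n × Fin n, Y g ij.1 ij.2 ^ (j.1 ij)
    have h2 := hzpow _ hx j (-1)
    rw [neg_one_mul] at h2
    rw [← h2, map_prod, map_prod, ← Finset.prod_mul_distrib]
    refine Finset.prod_congr rfl fun ij _ => ?_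
    rw [map_pow, hY σ g₀ hg₀, mul_pow, map_pow, neg_one_mul]
  -- the relation
  have hrel : ∀ (σ : Gal(PadicAlgCl p/ℚ_[p])) (g : Γ), Compat ι σ (g : Gal(Ω/ℚ)) →
      ∑ j : J, MvPolynomial.coeff j.1 Pol * Φ g j = 0 := by
    intro σ g _
    have h1 := eval_dpoly E' (Y g)
    have h2 : dsc (E' * Y g) = 0 := by
      show dsc (E' * (E * ((mat ρ g).map a).transpose)) = 0
      rw [← mul_assoc, hE'E, one_mul, dsc_transpose, dsc_map, hzero, map_zero]
    rw [h2, MvPolynomial.eval_eq'] at h1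
    rw [← h1]
    exact Finset.sum_coe_sort Pol.support fun m => MvPolynomial.coeff m Pol *
      ∏ ij : Fin n × Fin n, Y g ij.1 ij.2 ^ (m ij)
  have hcomp := rel_component hΓ ι Φ wt hΦ _ (fun j => MvPolynomial.coeff j.1 Pol) rfl hrel
  -- evaluation at the cocharacter
  have hpQ : (p : ℚ_[p]) ≠ 0 := by exact_mod_cast hp.out.ne_zero
  let z : Fin n → ℚ_[p] := fun i => (p : ℚ_[p]) ^ (h i)
  have hz : Function.Injective fun i => a (z i) := by
    intro i j hij
    apply hinj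
    have h1 : z i = z j := a.injective hij
    have h2 : ‖z i‖ = ‖z j‖ := by rw [h1]
    have h3 : ∀ i, ‖z i‖ = ((p : ℝ)⁻¹) ^ (h i) := fun i => by
      show ‖(p : ℚ_[p]) ^ (h i)‖ = _
      rw [norm_zpow, Padic.norm_p]
    rw [h3, h3] at h2
    have hp1 : (1 : ℝ) < p := by exact_mod_cast hp.out.one_lt
    have h4 : ((p : ℝ)⁻¹) ≠ 1 := (inv_lt_one_of_one_lt₀ hp1).ne
    exact zpow_right_injective₀ (by positivity) h4 h2
  have hfinal : dsc (E' * (Matrix.diagonal (fun i => a (z i)) * E)) = 0 := by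
    rw [← eval_dpoly, MvPolynomial.eval_eq']
    have hYone : ∀ i j, Y 1 i j = E i j := by
      intro i j
      show (E * ((mat ρ 1).map a).transpose) i j = E i j
      rw [mat_one, Matrix.map_one _ (map_zero a) (map_one a), Matrix.transpose_one, mul_one]
    have h1 : ∀ j : J, (∏ ij : Fin n × Fin n,
        (Matrix.diagonal (fun i => a (z i)) * E) ij.1 ij.2 ^ (j.1 ij)) =
        a ((p : ℚ_[p]) ^ (wt j)) * Φ 1 j := by
      intro j
      show _ = a ((p : ℚ_[p]) ^ (wt j)) * ∏ ij : Fin n × Fin n, Y 1 ij.1 ij.2 ^ (j.1 ij)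
      have h2 := hzpow (p : ℚ_[p]) hpQ j 1
      rw [one_mul] at h2
      rw [← h2, map_prod, ← Finset.prod_mul_distrib]
      refine Finset.prod_congr rfl fun ij _ => ?_
      rw [Matrix.diagonal_mul, hYone, mul_pow, map_pow, one_mul]
    have h2 : ∑ m ∈ Pol.support, MvPolynomial.coeff m Pol * ∏ ij : Fin n × Fin n,
        (Matrix.diagonal (fun i => a (z i)) * E) ij.1 ij.2 ^ (m ij) =
        ∑ j : J, a ((p : ℚ_[p]) ^ (wt j)) * (MvPolynomial.coeff j.1 Pol * Φ 1 j) := by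
      rw [← Finset.sum_coe_sort]
      refine Finset.sum_congr rfl fun j _ => ?_
      rw [h1 j]
      ring
    have h3 : ∑ j : J, a ((p : ℚ_[p]) ^ (wt j)) * (MvPolynomial.coeff j.1 Pol * Φ 1 j) =
        ∑ k ∈ Finset.univ.image wt, a ((p : ℚ_[p]) ^ k) *
          ∑ j : J, (if wt j = k then MvPolynomial.coeff j.1 Pol else 0) * Φ 1 j := by
      simp_rw [Finset.mul_sum]
      rw [Finset.sum_comm]
      refine Finset.sum_congr rfl fun j _ => ?_
      rw [Finset.sum_eq_single (wt j)]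
      · rw [if_pos rfl]
      · intro k _ hk
        rw [if_neg (Ne.symm hk)]
        ring
      · intro h0
        exact absurd (Finset.mem_image_of_mem wt (Finset.mem_univ j)) h0
    refine h2.trans (h3.trans ?_)
    refine Finset.sum_eq_zero fun k _ => ?_
    rw [hcomp k 1 1 compat_one, mul_zero]
  have h1 : dsc (E' * (Matrix.diagonal (fun i => a (z i)) * E)) =
      dsc (Matrix.diagonal (fun i => a (z i))) := by
    rw [← mul_assoc]
    exact dsc_conj hEE' _
  rw [h1] at hfinal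
  exact dsc_diagonal_ne_zero hz hfinal

end main

end Pool.Agent.GSD
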