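import Mathlib
import Pool.Agent.Lib.Helper90.GSem.Main
import Pool.Agent.Lib.Helper4.GSD.Defs

/-!
# Isotropic stable subspaces and self-dual eigenvalues
-/

namespace Pool.Agent.GSD

open Module Polynomial TensorProduct Pool.Agent.GSem

section simple

variable {K E : Type*} [Field K] [AddCommGroup E] [Module K E] [FiniteDimensional K E]

/-- A linear form killed by `T - μ` and by an eigenvector for the simple eigenvalue `μ` is zero. -/
theorem form_eq_zero (T : Module.End K E) (μ : K)
    (hμ : (LinearMap.charpoly T).rootMultiplicity μ ≤ 1)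
    (v : E) (hv0 : v ≠ 0) (hv : T v = μ • v) (l : E →ₗ[K] K) (hl : ∀ y, l (T y) = μ * l y)
    (hlv : l v = 0) : l = 0 := by
  have hfr : finrank K (T.maxGenEigenspace μ) ≤ 1 := by
    rw [LinearMap.finrank_maxGenEigenspace_eq]
    exact hμ
  have hvmem : v ∈ T.eigenspace μ := Module.End.mem_eigenspace_iff.2 hv
  have hle : T.eigenspace μ ≤ T.maxGenEigenspace μ := T.genEigenspace_le_maximal μ 1
  have hspan : T.maxGenEigenspace μ = Submodule.span K {v} := by
    symm
    apply Submodule.eq_of_le_of_finrank_le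
    · rw [Submodule.span_singleton_le_iff_mem]
      exact hle hvmem
    · rw [finrank_span_singleton hv0]
      exact hfr
  set g : E →ₗ[K] E := T - μ • LinearMap.id with hg
  have hgapp : ∀ y, g y = T y - μ • y := fun y => by simp [hg]
  have hker : ∀ y, g y = 0 ↔ y ∈ T.eigenspace μ := by
    intro y
    rw [hgapp, sub_eq_zero, Module.End.mem_eigenspace_iff]
  have hdisj : Disjoint (LinearMap.ker g) (LinearMap.range g) := by
    rw [Submodule.disjoint_def]
    rintro x hx ⟨z, rfl⟩
    have h1 : g (g z) = 0 := hx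
    have h2 : z ∈ T.maxGenEigenspace μ := by
      rw [Module.End.mem_maxGenEigenspace]
      refine ⟨2, ?_⟩
      have e : ((T - μ • (1 : Module.End K E)) ^ 2) z = g (g z) := by
        rw [pow_two]
        rfl
      rw [e, h1]
    rw [hspan, Submodule.mem_span_singleton] at h2
    obtain ⟨c, rfl⟩ := h2
    rw [map_smul, (hker v).2 hvmem, smul_zero]
  have htop : LinearMap.ker g ⊔ LinearMap.range g = ⊤ := by
    apply Submodule.eq_top_of_disjoint _ _ _ hdisj
    rw [add_comm]
    exact (LinearMap.finrank_range_add_finrank_ker g).ge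
  apply LinearMap.ext
  intro y
  have hy : y ∈ LinearMap.ker g ⊔ LinearMap.range g := by rw [htop]; trivial
  obtain ⟨a, ha, b, ⟨z, rfl⟩, rfl⟩ := Submodule.mem_sup.1 hy
  have h1 : a ∈ T.maxGenEigenspace μ := hle ((hker a).1 ha)
  rw [hspan, Submodule.mem_span_singleton] at h1
  obtain ⟨c, rfl⟩ := h1
  rw [map_add, map_smul, hlv, smul_zero, zero_add, hgapp, map_sub, map_smul, hl, smul_eq_mul,
    sub_self]
  rfl

end simple

section main

variable {p : ℕ} [hp : Fact p.Prime]
variable {V : Type*} [AddCommGroup V] [Module ℚ_[p] V] [FiniteDimensional ℚ_[p] V]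

omit [FiniteDimensional ℚ_[p] V] in
theorem pairC_baseChange (B : V →ₗ[ℚ_[p]] V →ₗ[ℚ_[p]] ℚ_[p])
    (T : V →ₗ[ℚ_[p]] V) (c : ℚ_[p]) (hT : ∀ x y, B (T x) (T y) = c * B x y)
    (x y : ℂ_[p] ⊗[ℚ_[p]] V) :
    pairC B (T.baseChange ℂ_[p] x) (T.baseChange ℂ_[p] y) =
      algebraMap ℚ_[p] ℂ_[p] c * pairC B x y := by
  induction x using TensorProduct.induction_on with
  | zero => simp
  | add x x' hx hx' =>
    rw [map_add, map_add, map_add, LinearMap.add_apply, LinearMap.add_apply, hx, hx']
    ring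
  | tmul a v =>
    induction y using TensorProduct.induction_on with
    | zero => simp
    | add y y' hy hy' =>
      rw [map_add, map_add, map_add, hy, hy']
      ring
    | tmul a' v' =>
      rw [LinearMap.baseChange_tmul, LinearMap.baseChange_tmul, pairC_tmul, pairC_tmul, hT,
        map_mul]
      ring

omit [FiniteDimensional ℚ_[p] V] in
theorem baseChange_mem_ext (U : Submodule ℚ_[p] V) (x : ℂ_[p] ⊗[ℚ_[p]] U) :
    U.subtype.baseChange ℂ_[p] x ∈ ext U := by
  induction x using TensorProduct.induction_on with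
  | zero => rw [map_zero]; exact Submodule.zero_mem _
  | add x y hx hy => rw [map_add]; exact Submodule.add_mem _ hx hy
  | tmul a u =>
    rw [LinearMap.baseChange_tmul]
    have : a ⊗ₜ[ℚ_[p]] (U.subtype u) = a • ((1 : ℂ_[p]) ⊗ₜ[ℚ_[p]] (u : V)) := by
      rw [TensorProduct.smul_tmul', smul_eq_mul, mul_one]
      rfl
    rw [this]
    exact Submodule.smul_mem _ _ (one_tmul_mem_ext u.2)

/-- A root of the characteristic polynomial of the restriction of `T` to a stable subspace gives an
eigenvector. -/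
theorem exists_eigenvector (T : V →ₗ[ℚ_[p]] V) (U : Submodule ℚ_[p] V)
    (hU : ∀ x ∈ U, T x ∈ U) (a : PadicAlgCl p)
    (ha : aeval a (LinearMap.charpoly (T.restrict hU)) = 0) :
    ∃ v ∈ ext U, v ≠ 0 ∧ T.baseChange ℂ_[p] v = (a : ℂ_[p]) • v := by
  set TU := T.restrict hU with hTU
  have h1 : (LinearMap.charpoly (TU.baseChange ℂ_[p])).IsRoot (a : ℂ_[p]) := by
    rw [LinearMap.charpoly_baseChange, IsRoot.def, eval_map, ← aeval_def]
    have h2 : aeval (a : ℂ_[p]) TU.charpoly = ((aeval a TU.charpoly : PadicAlgCl p) : ℂ_[p]) :=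
      aeval_algebraMap_apply ℂ_[p] a TU.charpoly
    rw [h2, ha]
    exact UniformSpace.Completion.coe_zero
  rw [← Module.End.hasEigenvalue_iff_isRoot_charpoly] at h1
  obtain ⟨u, hu⟩ := h1.exists_hasEigenvector
  have hinj : Function.Injective (U.subtype.baseChange ℂ_[p]) :=
    Module.Flat.lTensor_preserves_injective_linearMap (M := ℂ_[p]) U.subtype
      (Submodule.subtype_injective U)
  refine ⟨U.subtype.baseChange ℂ_[p] u, baseChange_mem_ext U u, ?_, ?_⟩
  · intro h
    exact hu.2 (hinj (h.trans (map_zero _).symm))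
  · have h3 : (T.baseChange ℂ_[p]) ∘ₗ (U.subtype.baseChange ℂ_[p]) =
        (U.subtype.baseChange ℂ_[p]) ∘ₗ (TU.baseChange ℂ_[p]) := by
      rw [← LinearMap.baseChange_comp, ← LinearMap.baseChange_comp]
      rfl
    have h4 := LinearMap.congr_fun h3 u
    rw [LinearMap.comp_apply, LinearMap.comp_apply, hu.apply_eq_smul, map_smul] at h4
    exact h4

/-- A stable isotropic subspace is zero if the eigenvalues are distinct and each of them is
conjugate to its dual eigenvalue. -/
theorem isotropic_eq_bot (T : V →ₗ[ℚ_[p]] V) (lam : ℚ_[p]) (hlam : lam ≠ 0)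
    (B : V →ₗ[ℚ_[p]] V →ₗ[ℚ_[p]] ℚ_[p]) (hB : ∀ x, (∀ y, B x y = 0) → x = 0)
    (hBT : ∀ x y, B (T x) (T y) = lam * B x y) (hsep : (LinearMap.charpoly T).Separable)
    (hself : ∀ a : PadicAlgCl p, aeval a (LinearMap.charpoly T) = 0 →
      ∀ f : ℚ_[p][X], aeval a f = 0 →
        aeval (algebraMap ℚ_[p] (PadicAlgCl p) lam / a) f = 0)
    (U : Submodule ℚ_[p] V) (hU : ∀ x ∈ U, T x ∈ U)
    (hiso : ∀ x ∈ U, ∀ y ∈ U, B x y = 0) : U = ⊥ := by
  by_contra hne
  have hnt : Nontrivial U := (Submodule.nontrivial_iff_ne_bot).2 hne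
  set TU := T.restrict hU with hTU
  set TC := T.baseChange ℂ_[p] with hTC
  have hdeg : (LinearMap.charpoly TU).natDegree ≠ 0 := by
    rw [LinearMap.charpoly_natDegree]
    exact Module.finrank_pos.ne'
  obtain ⟨a, ha⟩ : ∃ a : PadicAlgCl p, aeval a (LinearMap.charpoly TU) = 0 := by
    apply IsAlgClosed.exists_aeval_eq_zero
    intro h
    exact hdeg (natDegree_eq_of_degree_eq_some h)
  obtain ⟨v, hvU, hv0, hv⟩ := exists_eigenvector T U hU a ha
  have hcoe : ∀ (b : PadicAlgCl p) (f : ℚ_[p][X]), aeval (b : ℂ_[p]) f =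
      ((aeval b f : PadicAlgCl p) : ℂ_[p]) := fun b f => aeval_algebraMap_apply ℂ_[p] b f
  have hcoe0 : ∀ b : PadicAlgCl p, (b : ℂ_[p]) = 0 → b = 0 := by
    intro b hb
    rw [← norm_eq_zero, ← PadicComplex.norm_extends, hb, norm_zero]
  -- `a` is an eigenvalue of `T`
  have haT : aeval a (LinearMap.charpoly T) = 0 := by
    apply hcoe0
    rw [← hcoe, aeval_def, ← eval_map, ← IsRoot.def, ← LinearMap.charpoly_baseChange,
      ← Module.End.hasEigenvalue_iff_isRoot_charpoly]
    exact Module.End.hasEigenvalue_of_hasEigenvector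
      ⟨Module.End.mem_eigenspace_iff.2 hv, hv0⟩
  have hlamC : algebraMap ℚ_[p] ℂ_[p] lam ≠ 0 := by
    rw [Ne, map_eq_zero]; exact hlam
  have hpair := pairC_baseChange B T lam hBT
  have ha0 : (a : ℂ_[p]) ≠ 0 := by
    intro h0
    rw [h0, zero_smul] at hv
    apply hv0
    apply eq_zero_of_pairC B hB
    intro y
    have h1 := hpair v y
    rw [hv, map_zero, LinearMap.zero_apply] at h1
    exact (mul_eq_zero.1 h1.symm).resolve_left hlamC
  have hb := hself a haT _ ha
  obtain ⟨v', hv'U, hv'0, hv'⟩ := exists_eigenvector T U hU _ hb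
  set μ : ℂ_[p] := ((algebraMap ℚ_[p] (PadicAlgCl p) lam / a : PadicAlgCl p) : ℂ_[p]) with hμ
  have hμa : μ * (a : ℂ_[p]) = algebraMap ℚ_[p] ℂ_[p] lam := by
    rw [hμ, ← UniformSpace.Completion.coe_mul, div_mul_cancel₀]
    · rfl
    · intro h
      apply ha0
      rw [h]
      exact UniformSpace.Completion.coe_zero
  have hmult : (LinearMap.charpoly TC).rootMultiplicity μ ≤ 1 := by
    apply rootMultiplicity_le_one_of_separable
    rw [hTC, LinearMap.charpoly_baseChange]
    exact hsep.map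
  have hl : pairC B v = 0 := by
    apply form_eq_zero TC μ hmult v' hv'0 hv'
    · intro y
      have h1 := hpair v y
      rw [hv, map_smul, LinearMap.smul_apply, smul_eq_mul, ← hμa] at h1
      have h2 : (a : ℂ_[p]) * pairC B v (TC y) = (a : ℂ_[p]) * (μ * pairC B v y) := by
        rw [h1]; ring
      exact mul_left_cancel₀ ha0 h2
    · exact pairC_eq_zero B U hiso v v' hvU hv'U
  apply hv0
  apply eq_zero_of_pairC B hB
  intro y
  rw [hl]
  rfl

end main

end Pool.Agent.GSD
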