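import Mathlib
import Pool.Agent.Lib.Helper4.GSD.HTD
import Pool.Agent.Lib.Helper4.GSD.Semi
import Pool.Agent.Lib.Helper4.GSD.Conj
import Pool.Agent.Lib.Helper4.GSD.Count

/-!
# Semisimplicity for a positive density of primes
-/

open Module Polynomial TensorProduct Filter Topology Pool.Agent.GSem Pool.Agent.Ord

namespace Pool.Agent.GSD

section complement

variable {p : ℕ} [Fact p.Prime] {Ω : Type*} [Field Ω] [CharZero Ω] {Γ : Subgroup Gal(Ω/ℚ)}
variable {V : Type*} [AddCommGroup V] [Module ℚ_[p] V] [FiniteDimensional ℚ_[p] V]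

/-- Reduction to isotropic subspaces. -/
theorem semisimple_of_isotropic (ρ : Representation ℚ_[p] Γ V) (w : ℤ)
    (B : V →ₗ[ℚ_[p]] V →ₗ[ℚ_[p]] ℚ_[p]) (hB : IsPolar ρ w B)
    (h : ∀ U : Submodule ℚ_[p] V, (∀ g, ∀ x ∈ U, ρ g x ∈ U) →
      (∀ x ∈ U, ∀ y ∈ U, B x y = 0) → U = ⊥) : IsSemisimple ρ := by
  intro W hW
  have hWp : ∀ g, ∀ x ∈ perp B W, ρ g x ∈ perp B W := by
    intro g y hy x hx
    have h1 := hB.2 g (ρ g⁻¹ x) y
    have h2 : ρ g (ρ g⁻¹ x) = x := by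
      have : ρ g (ρ g⁻¹ x) = (ρ g * ρ g⁻¹) x := rfl
      rw [this, ← map_mul, mul_inv_cancel, map_one]
      rfl
    rw [h2, hy _ (hW g⁻¹ x hx), mul_zero] at h1
    exact h1
  refine ⟨perp B W, hWp, isCompl_perp B W ?_⟩
  apply h
  · intro g x hx
    exact ⟨hW g x hx.1, hWp g x hx.2⟩
  · intro x hx y hy
    exact hy.2 x hx.1

end complement

section conj

variable {Ω : Type*} [Field Ω] [CharZero Ω] [IsAlgClosure ℚ Ω]

/-- Complex conjugation. -/
theorem exists_conj (Ω : Type*) [Field Ω] [CharZero Ω] [IsAlgClosure ℚ Ω] :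
    ∃ (j : Ω →+* ℂ) (c : Gal(Ω/ℚ)), c * c = 1 ∧ ∀ x, j (c x) = (starRingEnd ℂ) (j x) := by
  have hG : IsGalois ℚ Ω := isGaloisΩ
  have halg : Algebra.IsAlgebraic ℚ Ω := IsAlgClosure.isAlgebraic
  let j : Ω →+* ℂ := (IsAlgClosed.lift (M := ℂ) (R := ℚ) (S := Ω) : Ω →ₐ[ℚ] ℂ)
  let _ : Algebra Ω ℂ := j.toAlgebra
  have hst : IsScalarTower ℚ Ω ℂ := IsScalarTower.of_algebraMap_eq (fun q => by simp)
  let c : Gal(Ω/ℚ) := (Complex.conjAe.restrictScalars ℚ).restrictNormal Ω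
  have hc : ∀ x, j (c x) = (starRingEnd ℂ) (j x) := fun x =>
    AlgEquiv.restrictNormal_commutes (F := ℚ) (K₁ := ℂ) (K₂ := ℂ)
      (Complex.conjAe.restrictScalars ℚ) Ω x
  refine ⟨j, c, ?_, hc⟩
  apply AlgEquiv.ext
  intro x
  apply j.injective
  rw [AlgEquiv.mul_apply, hc, hc, Complex.conj_conj]
  rfl

omit [IsAlgClosure ℚ Ω] in
/-- Complex conjugation on Weil numbers. -/
theorem conj_root {j : Ω →+* ℂ} {c : Gal(Ω/ℚ)} (hc : ∀ x, j (c x) = (starRingEnd ℂ) (j x))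
    {Q : ℚ} (hQ : 0 < Q) {γ : Ω} (h2 : ‖j γ‖ ^ 2 = (Q : ℝ)) : c γ = (Q : Ω) / γ := by
  have hγ0 : j γ ≠ 0 := by
    intro h0
    rw [h0, norm_zero] at h2
    have : (0 : ℝ) < (Q : ℝ) := by exact_mod_cast hQ
    rw [← h2] at this
    norm_num at this
  apply j.injective
  rw [hc, map_div₀, map_ratCast, eq_div_iff hγ0, mul_comm, Complex.mul_conj]
  rw [Complex.normSq_eq_norm_sq, h2]
  simp

end conj

section perm

variable {Ω : Type*} [Field Ω] [CharZero Ω]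

/-- The action of the Galois group on a stable set. -/
noncomputable def setPerm (R : Set Ω) (hR : ∀ (σ : Gal(Ω/ℚ)) (γ : Ω), γ ∈ R → σ γ ∈ R) :
    Gal(Ω/ℚ) →* Equiv.Perm R :=
  MonoidHom.mk' (fun σ => (σ.toEquiv).subtypeEquiv (fun γ => by
    constructor
    · exact hR σ γ
    · intro h
      have h1 := hR σ⁻¹ _ h
      have h2 : σ⁻¹ (σ.toEquiv γ) = γ := σ.symm_apply_apply γ
      rwa [h2] at h1)) (fun σ τ => by
      ext γ
      rfl)

theorem setPerm_apply (R : Set Ω) (hR : ∀ (σ : Gal(Ω/ℚ)) (γ : Ω), γ ∈ R → σ γ ∈ R)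
    (σ : Gal(Ω/ℚ)) (γ : R) : ((setPerm R hR σ γ : R) : Ω) = σ γ := rfl

theorem mem_ker_iff (R : Set Ω) (hR : ∀ (σ : Gal(Ω/ℚ)) (γ : Ω), γ ∈ R → σ γ ∈ R)
    (σ : Gal(Ω/ℚ)) : σ ∈ (setPerm R hR).ker ↔ ∀ γ ∈ R, σ γ = γ := by
  rw [MonoidHom.mem_ker]
  constructor
  · intro h γ hγ
    have h1 := setPerm_apply R hR σ ⟨γ, hγ⟩
    rw [h] at h1
    exact h1.symm
  · intro h
    ext γ
    rw [setPerm_apply, h _ γ.2]
    rfl

theorem isOpen_ker [IsAlgClosure ℚ Ω] {R : Finset Ω}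
    (hR : ∀ (σ : Gal(Ω/ℚ)) (γ : Ω), γ ∈ (R : Set Ω) → σ γ ∈ (R : Set Ω)) :
    IsOpen ((setPerm (R : Set Ω) hR).ker : Set Gal(Ω/ℚ)) := by
  have halg : Algebra.IsAlgebraic ℚ Ω := IsAlgClosure.isAlgebraic
  have h1 : ((setPerm (R : Set Ω) hR).ker : Set Gal(Ω/ℚ)) =
      ⋂ γ : R, (MulAction.stabilizer Gal(Ω/ℚ) (γ : Ω) : Set Gal(Ω/ℚ)) := by
    ext σ
    rw [SetLike.mem_coe, mem_ker_iff, Set.mem_iInter]
    simp only [SetLike.mem_coe, MulAction.mem_stabilizer_iff, AlgEquiv.smul_def, Subtype.forall]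
  rw [h1]
  exact isOpen_iInter_of_finite fun γ => stabilizer_isOpen_of_isIntegral (K := ℚ) (γ : Ω)

theorem card_quot_le {R : Finset Ω}
    (hR : ∀ (σ : Gal(Ω/ℚ)) (γ : Ω), γ ∈ (R : Set Ω) → σ γ ∈ (R : Set Ω)) :
    Nat.card (Gal(Ω/ℚ) ⧸ (setPerm (R : Set Ω) hR).ker) ≤ (R.card).factorial := by
  classical
  have h1 : Nat.card (Gal(Ω/ℚ) ⧸ (setPerm (R : Set Ω) hR).ker) ≤
      Nat.card (Equiv.Perm (R : Set Ω)) :=
    Nat.card_le_card_of_injective _ (QuotientGroup.kerLift_injective (setPerm (R : Set Ω) hR))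
  refine h1.trans (le_of_eq ?_)
  rw [Nat.card_eq_fintype_card, Fintype.card_perm]
  congr 1
  simp

end perm

section coeff

variable {Ω : Type*} [Field Ω] [CharZero Ω] [IsAlgClosure ℚ Ω]
variable {E : Type*} [Field E] [NumberField E]

/-- An embedding of a number field in the closure of `ℚ_p` comes from `Ω`. -/
theorem exists_emb {p : ℕ} [Fact p.Prime] (ι : Ω →+* PadicAlgCl p) (lam : E →+* PadicAlgCl p) :
    ∃ σ : E →+* Ω, ι.comp σ = lam := by
  have h1 : ∀ x : E, ∃ y : Ω, ι y = lam x := by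
    intro x
    have hx : IsIntegral ℚ x := Algebra.IsIntegral.isIntegral x
    obtain ⟨γ, -, hγ⟩ := exists_root_eq ι (minpoly ℚ x) (minpoly.ne_zero hx) (lam x) (by
      have h2 : aeval (lam x) (minpoly ℚ x) = lam (aeval x (minpoly ℚ x)) :=
        aeval_algHom_apply lam.toRatAlgHom x (minpoly ℚ x)
      rw [h2, minpoly.aeval, map_zero])
    exact ⟨γ, hγ⟩
  choose y hy using h1
  refine ⟨{ toFun := y, map_one' := ?_, map_mul' := ?_, map_zero' := ?_, map_add' := ?_ }, ?_⟩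
  · apply ι.injective
    rw [hy, map_one, map_one]
  · intro a b
    apply ι.injective
    rw [hy, map_mul, map_mul, hy, hy]
  · apply ι.injective
    rw [hy, map_zero, map_zero]
  · intro a b
    apply ι.injective
    rw [hy, map_add, map_add, hy, hy]
  · ext x
    exact hy x

/-- If a generator of `E` is mapped to `ℚ_p` by all embeddings, then `p` splits completely. -/
theorem card_emb_eq {p : ℕ} [Fact p.Prime] (ι : Ω →+* PadicAlgCl p) (θ : E)
    (hθ : Algebra.adjoin ℚ {θ} = ⊤)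
    (h : ∀ σ : E →+* Ω, ∃ x : ℚ_[p], algebraMap ℚ_[p] (PadicAlgCl p) x = ι (σ θ)) :
    Nat.card (E →+* ℚ_[p]) = finrank ℚ E := by
  classical
  have hcl : IsAlgClosed Ω := IsAlgClosure.isAlgClosed ℚ
  set a := algebraMap ℚ_[p] (PadicAlgCl p) with ha
  have h1 : ∀ (σ : E →+* Ω) (x : E), ∃ y : ℚ_[p], a y = ι (σ x) := by
    intro σ x
    have hx : x ∈ Algebra.adjoin ℚ {θ} := by rw [hθ]; trivial
    obtain ⟨g, hg⟩ := Algebra.adjoin_singleton_eq_range_aeval ℚ θ ▸ hx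
    obtain ⟨y, hy⟩ := h σ
    refine ⟨aeval y g, ?_⟩
    have e1 : a (aeval y g) = aeval (a y) g := (aeval_algHom_apply a.toRatAlgHom y g).symm
    have e2 : ι (σ (aeval θ g)) = aeval (ι (σ θ)) g :=
      (aeval_algHom_apply (ι.comp σ).toRatAlgHom θ g).symm
    have hg' : aeval θ g = x := hg
    rw [e1, ← hg', e2, hy]
  choose y hy using h1
  let F : (E →+* Ω) → (E →+* ℚ_[p]) := fun σ =>
    { toFun := y σ
      map_one' := by apply a.injective; rw [hy, map_one, map_one, map_one]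
      map_mul' := fun b c => by apply a.injective; rw [hy, map_mul, map_mul, map_mul, hy, hy]
      map_zero' := by apply a.injective; rw [hy, map_zero, map_zero, map_zero]
      map_add' := fun b c => by apply a.injective; rw [hy, map_add, map_add, map_add, hy, hy] }
  have hF : Function.Bijective F := by
    constructor
    · intro σ σ' hσ
      ext x
      apply ι.injective
      rw [← hy σ x, ← hy σ' x]
      have := RingHom.congr_fun hσ x
      have h2 : y σ x = y σ' x := this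
      rw [h2]
    · intro lam
      obtain ⟨σ, hσ⟩ := exists_emb ι (a.comp lam)
      refine ⟨σ, ?_⟩
      ext x
      apply a.injective
      show a (y σ x) = a (lam x)
      rw [hy]
      exact RingHom.congr_fun hσ x
  rw [← Nat.card_congr (Equiv.ofBijective F hF), Nat.card_eq_fintype_card,
    NumberField.Embeddings.card E Ω]

end coeff

section main

variable {Ω : Type*} [Field Ω] [CharZero Ω] [IsAlgClosure ℚ Ω] {Γ : Subgroup Gal(Ω/ℚ)}

/-- **Semisimplicity for a positive density of primes.** -/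
theorem semisimple_density (hΓ : IsOpen (Γ : Set Gal(Ω/ℚ))) (E : Type*) [Field E] [NumberField E]
    [NumberField.IsTotallyReal E] {J : Type*} [Fintype J] (n : J → ℕ) (w : J → ℤ)
    (ρ : ∀ (j : J) (p : ℕ) [Fact p.Prime],
      (E →+* ℚ_[p]) → Representation ℚ_[p] Γ (Fin (n j) → ℚ_[p]))
    (hsys : ∀ j, IsPureSystem E (w j) (ρ j))
    (hpol : ∀ (j : J) (p : ℕ) [Fact p.Prime] (lam : E →+* ℚ_[p]),
      ∃ B, IsPolar (ρ j p lam) (w j) B)
    (hreg : ∀ j, ∃ (p : ℕ) (_ : Fact p.Prime) (lam : E →+* ℚ_[p]),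
      IsCont (ρ j p lam) ∧ IsRegular (ρ j p lam)) :
    HasLowerDensity {p | ∃ _ : Fact p.Prime,
        Nat.card (E →+* ℚ_[p]) = finrank ℚ E ∧ ∀ j lam, IsSemisimple (ρ j p lam)}
      (1 / ((finrank ℚ E * (1 + ∑ j, n j)).factorial : ℝ)) := by
  classical
  have hcl : IsAlgClosed Ω := IsAlgClosure.isAlgClosed ℚ
  -- the Frobenius elements
  have hfrob : ∀ j, ∃ (l : ℕ) (φ : Γ) (P : E[X]), l.Prime ∧ IsFrobAt l (φ : Gal(Ω/ℚ)) ∧
      P.Separable ∧ P.natDegree = n j ∧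
      (∀ (τ : E →+* ℂ) (z : ℂ), P.eval₂ τ z = 0 → ‖z‖ ^ 2 = (l : ℝ) ^ (-(w j))) ∧
      ∀ (p : ℕ) [Fact p.Prime] (lam : E →+* ℚ_[p]), p ≠ l →
        LinearMap.charpoly (ρ j p lam φ) = P.map lam := by
    intro j
    obtain ⟨p₀, hp₀, lam₀, hcont, hr⟩ := hreg j
    obtain ⟨g, hg⟩ : ∃ g : Γ, (LinearMap.charpoly (ρ j p₀ lam₀ g)).Separable := by
      rcases hr with hr | ⟨h, hinj, hHT⟩
      · exact hr
      · exact exists_separable_of_HT hΓ _ hinj hHT
    obtain ⟨T, hT⟩ := hsys j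
    obtain ⟨l, hbl, hl, φ, hφ, hsep⟩ := exists_frob_separable hΓ (ρ j p₀ lam₀) hcont g hg
      (max p₀ (T.sup id))
    have hlp₀ : p₀ ≠ l := (lt_of_le_of_lt (le_max_left _ _) hbl).ne
    have hlT : l ∉ T := by
      intro h
      have h1 : l ≤ T.sup id := Finset.le_sup (f := id) h
      exact absurd (lt_of_le_of_lt (le_max_right _ _) hbl) (not_lt.2 h1)
    obtain ⟨P, hPw, hPρ⟩ := hT l hl hlT φ hφ
    have hP₀ := hPρ p₀ lam₀ hlp₀
    rw [hP₀, Polynomial.separable_map] at hsep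
    refine ⟨l, φ, P, hl, hφ, hsep, ?_, hPw, hPρ⟩
    have h1 := LinearMap.charpoly_natDegree (ρ j p₀ lam₀ φ)
    rw [hP₀, natDegree_map, Module.finrank_fin_fun] at h1
    exact h1
  choose l φ P hl hφ hsep hdeg hPw hPρ using hfrob
  have hP0 : ∀ j, P j ≠ 0 := fun j => (hsep j).ne_zero
  obtain ⟨θ, hθ⟩ : ∃ θ : E, Algebra.adjoin ℚ {θ} = ⊤ := by
    obtain ⟨θ, hθ⟩ := Field.exists_primitive_element ℚ E
    refine ⟨θ, ?_⟩
    have h1 := IntermediateField.adjoin_simple_toSubalgebra_of_isAlgebraic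
      (F := ℚ) (α := θ) (Algebra.IsAlgebraic.isAlgebraic θ)
    rw [← h1, hθ]
    rfl
  -- the finite set of roots
  let R : Finset Ω := (Finset.univ : Finset (J × (E →+* Ω))).biUnion
      (fun x => ((P x.1).map x.2).roots.toFinset) ∪
    (Finset.univ : Finset (E →+* Ω)).image (fun σ => σ θ)
  have hmemR : ∀ γ : Ω, γ ∈ R ↔ (∃ (j : J) (σ : E →+* Ω), eval γ ((P j).map σ) = 0) ∨
      ∃ σ : E →+* Ω, σ θ = γ := by
    intro γ
    rw [Finset.mem_union, Finset.mem_biUnion, Finset.mem_image]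
    refine or_congr ?_ ?_
    · constructor
      · rintro ⟨⟨j, σ⟩, -, h⟩
        rw [Multiset.mem_toFinset] at h
        exact ⟨j, σ, (mem_roots'.1 h).2⟩
      · rintro ⟨j, σ, h⟩
        refine ⟨⟨j, σ⟩, Finset.mem_univ _, ?_⟩
        rw [Multiset.mem_toFinset, mem_roots ((Polynomial.map_ne_zero_iff σ.injective).2 (hP0 j))]
        exact h
    · simp
  have hRst : ∀ (g : Gal(Ω/ℚ)) (γ : Ω), γ ∈ (R : Set Ω) → g γ ∈ (R : Set Ω) := by
    intro g γ hγ
    rw [Finset.mem_coe, hmemR] at hγ ⊢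
    rcases hγ with ⟨j, σ, h⟩ | ⟨σ, rfl⟩
    · left
      refine ⟨j, ((g : Ω ≃+* Ω) : Ω →+* Ω).comp σ, ?_⟩
      rw [← Polynomial.map_map, eval_map]
      have h1 := Polynomial.hom_eval₂ ((P j).map σ) (RingHom.id Ω) ((g : Ω ≃+* Ω) : Ω →+* Ω) γ
      rw [eval₂_id, h, map_zero, RingHom.comp_id] at h1
      exact h1.symm
    · right
      exact ⟨((g : Ω ≃+* Ω) : Ω →+* Ω).comp σ, rfl⟩
  have hcard : R.card ≤ finrank ℚ E * (1 + ∑ j, n j) := by
    have h1 : ((Finset.univ : Finset (E →+* Ω)).image (fun σ => σ θ)).card ≤ finrank ℚ E := by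
      refine Finset.card_image_le.trans ?_
      rw [Finset.card_univ, NumberField.Embeddings.card E Ω]
    have h2 : ((Finset.univ : Finset (J × (E →+* Ω))).biUnion
        (fun x => ((P x.1).map x.2).roots.toFinset)).card ≤ finrank ℚ E * ∑ j, n j := by
      refine Finset.card_biUnion_le.trans ?_
      have h3 : ∀ x : J × (E →+* Ω), (((P x.1).map x.2).roots.toFinset).card ≤ n x.1 := by
        intro x
        refine (Multiset.toFinset_card_le _).trans ((card_roots' _).trans ?_)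
        rw [natDegree_map, hdeg]
      refine (Finset.sum_le_sum fun x _ => h3 x).trans (le_of_eq ?_)
      rw [Fintype.sum_prod_type]
      simp only [Finset.sum_const, Finset.card_univ, NumberField.Embeddings.card E Ω, smul_eq_mul]
      rw [Finset.mul_sum]
    refine (Finset.card_union_le _ _).trans ?_
    rw [mul_add, mul_one, add_comm]
    exact add_le_add h1 h2
  -- complex conjugation
  obtain ⟨jc, c, hcc, hc⟩ := exists_conj Ω
  let Q : J → ℚ := fun j => (l j : ℚ) ^ (-(w j))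
  have hQ0 : ∀ j, 0 < Q j := fun j => zpow_pos (by exact_mod_cast (hl j).pos) _
  have hcroot : ∀ (j : J) (σ : E →+* Ω) (γ : Ω), eval γ ((P j).map σ) = 0 →
      c γ = ((Q j : ℚ) : Ω) / γ := by
    intro j σ γ hγ
    apply conj_root hc (hQ0 j)
    have h1 := hPw j (jc.comp σ) (jc γ) (by
      rw [← Polynomial.hom_eval₂, ← eval_map, hγ, map_zero])
    rw [h1]
    show _ = ((((l j : ℚ) ^ (-(w j)) : ℚ)) : ℝ)
    push_cast
    rfl
  have hcθ : ∀ (σ : E →+* Ω) (x : E), c (σ x) = σ x := by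
    intro σ x
    apply jc.injective
    rw [hc]
    have h1 := NumberField.IsTotallyReal.complexEmbedding_isReal (jc.comp σ)
    have h2 := RingHom.congr_fun (NumberField.ComplexEmbedding.isReal_iff.1 h1) x
    exact h2
  set N := (setPerm (R : Set Ω) hRst).ker with hN
  have hNo : IsOpen (N : Set Gal(Ω/ℚ)) := isOpen_ker hRst
  have hfinN := finite_quotient N hNo
  obtain ⟨b, hb⟩ := exists_bound_finset R
  have h1 := density_gen N hNo c
  have h2 : (1 / ((finrank ℚ E * (1 + ∑ j, n j)).factorial : ℝ)) ≤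
      1 / (Nat.card (Gal(Ω/ℚ) ⧸ N) : ℝ) := by
    apply one_div_le_one_div_of_le
    · exact_mod_cast Nat.card_pos
    · exact_mod_cast (card_quot_le hRst).trans (Nat.factorial_le hcard)
  refine (h1.mono_right h2).mono (max b (Finset.univ.sup l)) ?_
  rintro p hbp hp ⟨φ', hφ', k, hk, hφk⟩
  have hbp' : b < p := lt_of_le_of_lt (le_max_left _ _) hbp
  have hlp : ∀ j, p ≠ l j := fun j =>
    (lt_of_le_of_lt ((Finset.le_sup (Finset.mem_univ j)).trans (le_max_right _ _)) hbp).ne'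
  have hfp : Fact p.Prime := ⟨hp⟩
  -- `φ'` acts as `c` on the roots
  have hφc : (φ' : Gal(Ω/ℚ) ⧸ N) = (c : Gal(Ω/ℚ) ⧸ N) := by
    rw [hφk]
    have h3 : (c : Gal(Ω/ℚ) ⧸ N) ^ 2 = 1 := by
      rw [sq, ← QuotientGroup.mk_mul, hcc]
      rfl
    have h4 : orderOf (c : Gal(Ω/ℚ) ⧸ N) ∣ 2 := orderOf_dvd_of_pow_eq_one h3
    rcases (Nat.dvd_prime Nat.prime_two).1 h4 with h5 | h5
    · rw [orderOf_eq_one_iff] at h5
      rw [h5, one_pow]
    · rw [h5] at hk
      have h6 : Odd k := by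
        rw [← Nat.not_even_iff_odd, even_iff_two_dvd]
        intro h7
        have := Nat.dvd_gcd h7 (dvd_refl 2)
        rw [hk.gcd_eq_one] at this
        norm_num at this
      obtain ⟨m, rfl⟩ := h6
      rw [pow_add, pow_mul, h3, one_pow, one_mul, pow_one]
  have hφroot : ∀ γ ∈ R, φ' γ = c γ := by
    intro γ hγ
    rw [eq_comm, QuotientGroup.eq] at hφc
    have h3 := (mem_ker_iff (R : Set Ω) hRst _).1 hφc γ hγ
    rw [AlgEquiv.mul_apply] at h3
    have h4 := congrArg c h3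
    have h5 : c (c⁻¹ (φ' γ)) = φ' γ := c.apply_symm_apply _
    rw [h5] at h4
    exact h4
  obtain ⟨ι, hι⟩ := exists_isFrobFor hφ'
  have hbR := hb p hbp' ι φ' hι
  refine ⟨hfp, ?_, ?_⟩
  · -- splitting
    apply card_emb_eq ι θ hθ
    intro σ
    have hmem : σ θ ∈ R := (hmemR _).2 (Or.inr ⟨σ, rfl⟩)
    apply (hbR _ hmem).2
    rw [hφroot _ hmem, hcθ]
  -- semisimplicity
  intro j lam
  obtain ⟨B, hB⟩ := hpol j p lam
  apply semisimple_of_isotropic (ρ j p lam) (w j) B hB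
  intro U hU hiso
  have hchar : LinearMap.charpoly (ρ j p lam (φ j)) = (P j).map lam := hPρ j p lam (hlp j)
  have hcyc : (toQ (cyc p Ω (φ j : Gal(Ω/ℚ))) : ℚ_[p]) = (l j : ℚ_[p]) := by
    have h3 := cyc_frob (p := p) (hl j) (Ne.symm (hlp j)) (hφ j)
    have h4 : (toQ (cyc p Ω (φ j : Gal(Ω/ℚ))) : ℚ_[p]) =
      (((cyc p Ω (φ j : Gal(Ω/ℚ)) : ℤ_[p]ˣ) : ℤ_[p]) : ℚ_[p]) := rfl
    rw [h4, h3]
    simp
  have hlam : ((Q j : ℚ) : ℚ_[p]) = toQ (cyc p Ω (φ j : Gal(Ω/ℚ))) ^ (-(w j)) := by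
    rw [hcyc]
    show ((((l j : ℚ) ^ (-(w j)) : ℚ)) : ℚ_[p]) = _
    push_cast
    rfl
  obtain ⟨σ, hσ⟩ := exists_emb ι ((algebraMap ℚ_[p] (PadicAlgCl p)).comp lam)
  refine isotropic_eq_bot (p := p) (ρ j p lam (φ j)) ((Q j : ℚ) : ℚ_[p]) ?_ B hB.1 ?_ ?_ ?_ U
    (fun x hx => hU (φ j) x hx) hiso
  · exact_mod_cast (hQ0 j).ne'
  · intro x y
    rw [hlam]
    exact hB.2 (φ j) x y
  · rw [hchar]
    exact (hsep j).map
  · intro a ha f hf
    rw [hchar, aeval_def, ← eval_map, Polynomial.map_map, ← hσ, ← Polynomial.map_map] at ha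
    obtain ⟨γ, hγ, rfl⟩ := exists_root_of_map ι ((P j).map σ)
      ((Polynomial.map_ne_zero_iff σ.injective).2 (hP0 j)) a ha
    have hmem : γ ∈ R := (hmemR _).2 (Or.inl ⟨j, σ, hγ⟩)
    have h3 := (hbR γ hmem).1 f hf
    rw [hφroot γ hmem, hcroot j σ γ hγ, map_div₀, map_ratCast] at h3
    rw [map_ratCast]
    exact h3

end main

end Pool.Agent.GSD
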